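import Pool.Agent.H334R2.CM.Defs
import Pool.Agent.H334R2.CM.S.DEC
import Pool.Agent.H334R2.CM.S.LOC
import Pool.Agent.H334R2.CM.S.SYM
import Pool.Agent.H334R2.CM.S.DIV8
import Pool.Agent.H334R2.CM.S.HOMC
import Pool.Agent.H334R2.CM.S.PSLB
import Pool.Agent.H334R2.CM.S.DIM1
import Pool.Agent.H334R2.CM.S.DIM2
import Pool.Agent.H334R2.CM.S.DIM3
import Pool.Agent.H334R2.CM.S.DIM4
import Pool.Agent.H334R2.CM.S.WEIL
import Pool.Agent.H334R2.CM.S.FOUR

set_option autoImplicit false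
set_option linter.unusedVariables false
open scoped Matrix MatrixGroups
universe u
namespace CM
namespace ASMG

section alg
variable {k : Type u} [Field k] {A : Type u} [Ring A] [Algebra k A]
  {M : Type u} [AddCommGroup M] [Module A M]

lemma smul_zero_iff {c : k} {m : M} (hm : m ≠ 0) (h : algebraMap k A c • m = 0) : c = 0 := by
  by_contra hc
  apply hm
  have : algebraMap k A c⁻¹ • algebraMap k A c • m = 0 := by rw [h, smul_zero]
  rwa [smul_smul, ← map_mul, inv_mul_cancel₀ hc, map_one, one_smul] at this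

lemma smul_algebraMap (c : k) (x : A) (m : M) : (c • x) • m = algebraMap k A c • x • m := by
  rw [Algebra.smul_def, mul_smul]

/-- a vector which is an eigenvector for all elements of a decomposed corner is fixed by exactly
one of the idempotents -/
lemma assign {n : ℕ} {ε : Fin n → A} {e : A} (hid : ∀ i, ε i * ε i = ε i)
    (ho : ∀ i j, i ≠ j → ε i * ε j = 0) (hs : ∑ i, ε i = e) {m : M} (hm : m ≠ 0)
    (hem : e • m = m) (hc : ∀ i, ∃ c : k, ε i • m = algebraMap k A c • m) :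
    ∃ i, ε i • m = m ∧ ∀ j, j ≠ i → ε j • m = 0 := by
  choose c hc using hc
  have h01 : ∀ i, c i = 0 ∨ c i = 1 := by
    intro i
    have h1 : ε i • ε i • m = ε i • m := by rw [smul_smul, hid]
    rw [hc i, ← smul_assoc, smul_eq_mul, ← Algebra.commutes, mul_smul, hc i, smul_smul,
      ← map_mul] at h1
    have h2 : algebraMap k A (c i * c i - c i) • m = 0 := by
      rw [map_sub, sub_smul, h1, sub_self]
    have h3 := smul_zero_iff hm h2
    have h4 : c i * (c i - 1) = 0 := by rw [mul_sub, mul_one]; exact h3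
    rcases mul_eq_zero.1 h4 with h | h
    · exact Or.inl h
    · exact Or.inr (sub_eq_zero.1 h)
  have hex : ∃ i, c i = 1 := by
    by_contra hcon
    push Not at hcon
    have h0 : ∀ i, c i = 0 := fun i => (h01 i).resolve_right (hcon i)
    apply hm
    rw [← hem, ← hs, Finset.sum_smul]
    refine Finset.sum_eq_zero fun i _ => ?_
    rw [hc i, h0 i, map_zero, zero_smul]
  obtain ⟨i, hi⟩ := hex
  have hi' : ε i • m = m := by rw [hc i, hi, map_one, one_smul]
  refine ⟨i, hi', fun j hj => ?_⟩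
  have : ε j • ε i • m = 0 := by rw [smul_smul, ho j i hj, zero_smul]
  rwa [hi'] at this

/-- two eigenvectors fixed by the same local idempotent have the same eigenvalues -/
lemma same_eig {M' : Type u} [AddCommGroup M'] [Module A M'] {ε : A} (hε : IsLoc k ε)
    {x : A} (hx : x * ε = ε * x) {m : M} {m' : M'} (hm : m ≠ 0) (hm' : m' ≠ 0)
    (h1 : ε • m = m) (h1' : ε • m' = m') {c c' : k} (h2 : x • m = algebraMap k A c • m)
    (h2' : x • m' = algebraMap k A c' • m') : c = c' := by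
  have hmem : x * ε ∈ cor k ε ε := by
    constructor
    · rw [hx, ← mul_assoc, hε.2.1]
    · rw [mul_assoc, hε.2.1]
  obtain ⟨d, N, hN⟩ := hε.2.2 _ hmem
  have key : ∀ {M : Type u} [AddCommGroup M] [Module A M] {m : M} {c : k}, m ≠ 0 → ε • m = m →
      x • m = algebraMap k A c • m → c = d := by
    intro M _ _ m c hm h1 h2
    have h3 : (x * ε - d • ε) • m = algebraMap k A (c - d) • m := by
      rw [sub_smul, mul_smul, h1, h2, smul_algebraMap, h1, map_sub, sub_smul]
    have h4 : ∀ N : ℕ, (x * ε - d • ε) ^ N • m = algebraMap k A ((c - d) ^ N) • m := by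
      intro N
      induction N with
      | zero => simp
      | succ N ih =>
        rw [pow_succ, mul_smul, h3, ← smul_assoc, smul_eq_mul, ← Algebra.commutes, mul_smul, ih,
          smul_smul, ← map_mul, pow_succ, mul_comm]
    have h5 := h4 N
    rw [hN, zero_smul] at h5
    have h6 := smul_zero_iff hm h5.symm
    exact sub_eq_zero.1 (eq_zero_of_pow_eq_zero h6)
  rw [key hm h1 h2, key hm' h1' h2']

lemma cor_pos [FiniteDimensional k A] {e f x : A} (hx : x ∈ cor k e f) (hx0 : x ≠ 0) :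
    1 ≤ Module.finrank k (cor k e f) := by
  have : Nontrivial (cor k e f) := ⟨⟨x, hx⟩, 0, fun h => hx0 (congrArg Subtype.val h)⟩
  exact Module.finrank_pos

lemma loc_pos [FiniteDimensional k A] {e : A} (he : IsLoc k e) :
    1 ≤ Module.finrank k (cor k e e) :=
  cor_pos ⟨he.2.1, he.2.1⟩ he.1

/-- in a commutative corner different idempotents have zero Peirce component -/
lemma cor_zero {e : A} (hc : ∀ x ∈ cor k e e, ∀ y ∈ cor k e e, x * y = y * x)
    {n : ℕ} {ε : Fin n → A} (hm : ∀ i, ε i ∈ cor k e e)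
    (ho : ∀ i j, i ≠ j → ε i * ε j = 0) {i j : Fin n} (hij : i ≠ j) :
    Module.finrank k (cor k (ε i) (ε j)) = 0 := by
  have : cor k (ε i) (ε j) = ⊥ := by
    rw [eq_bot_iff]
    intro x hx
    rw [Submodule.mem_bot]
    have hxe : x ∈ cor k e e := by
      constructor
      · rw [← hx.1, ← mul_assoc, (hm i).1]
      · rw [← hx.2, mul_assoc, (hm j).2]
    rw [← hx.2, ← hx.1, mul_assoc, hc x hxe _ (hm j), ← mul_assoc, ho i j hij, zero_mul]
  rw [this, finrank_bot]


/-- the data obtained for one nondegenerate character of the unipotent group -/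
structure SD (k : Type u) [Field k] (A : Type u) [Ring A] [Algebra k A] (b e e' : A) (m : ℕ) where
  n : ℕ
  ε : Fin n → A
  i1 : Fin n
  SL : Finset (Fin n)
  ST : Finset (Fin n)
  loc : ∀ i, IsLoc k (ε i)
  orth : ∀ i j, i ≠ j → ε i * ε j = 0
  sum : ∑ i, ε i = e
  zero : ∀ i j, i ≠ j → Module.finrank k (cor k (ε i) (ε j)) = 0
  nL : i1 ∉ SL
  nT : i1 ∉ ST
  dis : Disjoint SL ST
  cov : ∀ i, i = i1 ∨ i ∈ SL ∨ i ∈ ST
  cL : SL.card = 2 * m - 1
  cT : ST.card = (m - 1) / 2
  rb : ∀ i, Module.finrank k (cor k (ε i) b) = if i = i1 then 1 else 0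
  rL : ∀ i ∈ SL, Module.finrank k (cor k (ε i) (ε i)) + Module.finrank k (cor k e' (ε i)) = 2
  rT : ∀ i ∈ ST, Module.finrank k (cor k (ε i) (ε i)) + Module.finrank k (cor k e' (ε i)) = 8
  r1 : Module.finrank k (cor k (ε i1) (ε i1)) + Module.finrank k (cor k e' (ε i1)) = 5
  rs : ∑ i, Module.finrank k (cor k (ε i) (ε i)) = 4 * m
  smp : ∀ i, i ∈ SL ∨ i ∈ ST → ∃ (M : Type u) (_ : AddCommGroup M) (_ : Module A M),
    IsSimpleModule A M ∧ (∃ m : M, ε i • m ≠ 0) ∧ ∃ m : M, e' • m ≠ 0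

namespace SD
variable {k : Type u} [Field k] {A : Type u} [Ring A] [Algebra k A] [FiniteDimensional k A]
  {b e e' : A} {m : ℕ} (S : SD k A b e e' m) (S' : SD k A b e' e m)

omit [FiniteDimensional k A] in
lemma id (i : Fin S.n) : S.ε i * S.ε i = S.ε i := (S.loc i).2.1

lemma e_rank (g : A) :
    Module.finrank k (cor k e g) = ∑ i, Module.finrank k (cor k (S.ε i) g) := by
  have h := finrank_cor_sum_left (k := k) S.ε S.id S.orth g
  rwa [S.sum] at h

include S S'

lemma exEqv (i : Fin S.n) (hi : i ∈ S.SL ∨ i ∈ S.ST) : ∃ j, Eqv (S'.ε j) (S.ε i) ∧ j ≠ S'.i1 := by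
  obtain ⟨M, i1, i2, hM, h1, m', h2⟩ := S.smp i hi
  obtain ⟨j, hj⟩ : ∃ j, S'.ε j • m' ≠ 0 := by
    by_contra hcon
    push Not at hcon
    apply h2
    rw [← S'.sum, Finset.sum_smul]
    exact Finset.sum_eq_zero fun j _ => hcon j
  have hE := LOC_eqv (S'.loc j) (S.loc i) M hM ⟨m', hj⟩ h1
  refine ⟨j, hE, ?_⟩
  rintro rfl
  have h3 := hE.finrank_left (k := k) b
  rw [S'.rb, S.rb, if_pos rfl, if_neg] at h3
  · exact absurd h3 one_ne_zero
  · rintro rfl
    rcases hi with h | h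
    · exact S.nL h
    · exact S.nT h

lemma cross (i : Fin S.n) (hi : i ∈ S.SL ∨ i ∈ S.ST) :
    Module.finrank k (cor k e' (S.ε i)) = Module.finrank k (cor k (S.ε i) (S.ε i)) := by
  obtain ⟨j, hE, hj⟩ := S.exEqv S' i hi
  rw [S'.e_rank, Finset.sum_eq_single j]
  · exact hE.finrank_left _
  · intro j' _ h
    rw [← hE.finrank_right (S'.ε j')]
    exact S'.zero _ _ h
  · intro h; exact absurd (Finset.mem_univ j) h

lemma one_L (i : Fin S.n) (hi : i ∈ S.SL) : Module.finrank k (cor k (S.ε i) (S.ε i)) = 1 := by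
  have h1 := S.cross S' i (Or.inl hi)
  have h2 := S.rL i hi
  omega

lemma four_T (i : Fin S.n) (hi : i ∈ S.ST) : Module.finrank k (cor k (S.ε i) (S.ε i)) = 4 := by
  have h1 := S.cross S' i (Or.inr hi)
  have h2 := S.rT i hi
  omega

lemma three (hm : Odd m) : Module.finrank k (cor k (S.ε S.i1) (S.ε S.i1)) = 3 := by
  classical
  have hU : (Finset.univ : Finset (Fin S.n)) = insert S.i1 (S.SL ∪ S.ST) := by
    ext i
    simp only [Finset.mem_univ, Finset.mem_insert, Finset.mem_union, true_iff]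
    exact S.cov i
  have h1 := S.rs
  rw [hU, Finset.sum_insert (by
    rw [Finset.mem_union]; rintro (h | h)
    · exact S.nL h
    · exact S.nT h), Finset.sum_union S.dis,
    Finset.sum_congr rfl (fun i hi => S.one_L S' i hi),
    Finset.sum_congr rfl (fun i hi => S.four_T S' i hi), Finset.sum_const, Finset.sum_const,
    S.cL, S.cT, smul_eq_mul, smul_eq_mul] at h1
  obtain ⟨r, hr⟩ := hm
  omega

lemma off (j : Fin S'.n) (hj : j ≠ S'.i1) :
    Module.finrank k (cor k (S'.ε j) (S.ε S.i1)) = 0 := by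
  obtain ⟨i, hE, hi⟩ := S'.exEqv S j ((S'.cov j).resolve_left hj)
  rw [← hE.finrank_left]
  exact S.zero _ _ hi

lemma off' (i : Fin S.n) (hi : i ∈ S.SL ∨ i ∈ S.ST) :
    Module.finrank k (cor k (S'.ε S'.i1) (S.ε i)) = 0 := by
  obtain ⟨j, hE, hj⟩ := S.exEqv S' i hi
  rw [← hE.finrank_right]
  exact S'.zero _ _ hj.symm

lemma two (hm : Odd m) : Module.finrank k (cor k (S'.ε S'.i1) (S.ε S.i1)) = 2 := by
  have h1 := S.three S' hm
  have h2 := S.r1
  have h3 : Module.finrank k (cor k e' (S.ε S.i1)) =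
      Module.finrank k (cor k (S'.ε S'.i1) (S.ε S.i1)) := by
    rw [S'.e_rank, Finset.sum_eq_single S'.i1]
    · intro j' _ h
      exact S.off S' j' h
    · intro h; exact absurd (Finset.mem_univ _) h
  omega

theorem merge (hm : Odd m) (hS : ∀ e f : A, e * e = e → f * f = f →
      Module.finrank k (cor k e f) = Module.finrank k (cor k f e))
    (hb : IsLoc k b) (hb2 : Module.finrank k (cor k b b) = 2)
    (hfull : ∀ (M : Type u) [AddCommGroup M] [Module A M], IsSimpleModule A M →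
      (∃ m : M, b • m ≠ 0) ∨ (∃ m : M, e • m ≠ 0) ∨ ∃ m : M, e' • m ≠ 0) :
    IdemCartan k A (Cm (Fin ((m - 1) / 2)) (Fin (2 * m - 1))) := by
  classical
  have gT := S.ST.equivFin.trans (finCongr S.cT)
  have gL := S.SL.equivFin.trans (finCongr S.cL)
  have hgT : ∀ a, ((gT.symm a : S.ST) : Fin S.n) ∈ S.ST := fun a => (gT.symm a).2
  have hgL : ∀ a, ((gL.symm a : S.SL) : Fin S.n) ∈ S.SL := fun a => (gL.symm a).2
  have hgTi : ∀ a a', a ≠ a' → ((gT.symm a : S.ST) : Fin S.n) ≠ (gT.symm a' : S.ST) :=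
    fun a a' h h' => h (gT.symm.injective (Subtype.ext h'))
  have hgLi : ∀ a a', a ≠ a' → ((gL.symm a : S.SL) : Fin S.n) ≠ (gL.symm a' : S.SL) :=
    fun a a' h h' => h (gL.symm.injective (Subtype.ext h'))
  have hbid := hb.2.1
  have hid := S.id
  have hid' := S'.id
  have h3 := S.three S' hm
  have h3' := S'.three S hm
  have h2 := S.two S' hm
  have h2' := S'.two S hm
  have hb1 : Module.finrank k (cor k (S.ε S.i1) b) = 1 := by rw [S.rb, if_pos rfl]
  have hb1' : Module.finrank k (cor k (S'.ε S'.i1) b) = 1 := by rw [S'.rb, if_pos rfl]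
  have hb1s := hS _ _ hbid (hid S.i1)
  have hb1s' := hS _ _ hbid (hid' S'.i1)
  rw [hb1] at hb1s
  rw [hb1'] at hb1s'
  have hbT : ∀ a, Module.finrank k (cor k (S.ε (gT.symm a : S.ST)) b) = 0 := fun a => by
    rw [S.rb, if_neg]; intro h; exact S.nT (h ▸ hgT a)
  have hbL : ∀ a, Module.finrank k (cor k (S.ε (gL.symm a : S.SL)) b) = 0 := fun a => by
    rw [S.rb, if_neg]; intro h; exact S.nL (h ▸ hgL a)
  have hTb : ∀ a, Module.finrank k (cor k b (S.ε (gT.symm a : S.ST))) = 0 := fun a => by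
    rw [hS _ _ hbid (hid _), hbT]
  have hLb : ∀ a, Module.finrank k (cor k b (S.ε (gL.symm a : S.SL))) = 0 := fun a => by
    rw [hS _ _ hbid (hid _), hbL]
  have hT1 : ∀ a, Module.finrank k (cor k (S.ε (gT.symm a : S.ST)) (S.ε S.i1)) = 0 := fun a => by
    rw [S.zero]; intro h; exact S.nT (h ▸ hgT a)
  have h1T : ∀ a, Module.finrank k (cor k (S.ε S.i1) (S.ε (gT.symm a : S.ST))) = 0 := fun a => by
    rw [S.zero]; intro h; exact S.nT (h ▸ hgT a)
  have hL1 : ∀ a, Module.finrank k (cor k (S.ε (gL.symm a : S.SL)) (S.ε S.i1)) = 0 := fun a => by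
    rw [S.zero]; intro h; exact S.nL (h ▸ hgL a)
  have h1L : ∀ a, Module.finrank k (cor k (S.ε S.i1) (S.ε (gL.symm a : S.SL))) = 0 := fun a => by
    rw [S.zero]; intro h; exact S.nL (h ▸ hgL a)
  have h2T : ∀ a, Module.finrank k (cor k (S'.ε S'.i1) (S.ε (gT.symm a : S.ST))) = 0 :=
    fun a => S.off' S' _ (Or.inr (hgT a))
  have h2L : ∀ a, Module.finrank k (cor k (S'.ε S'.i1) (S.ε (gL.symm a : S.SL))) = 0 :=
    fun a => S.off' S' _ (Or.inl (hgL a))
  have hT2 : ∀ a, Module.finrank k (cor k (S.ε (gT.symm a : S.ST)) (S'.ε S'.i1)) = 0 := fun a => by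
    rw [hS _ _ (hid _) (hid' _), h2T]
  have hL2 : ∀ a, Module.finrank k (cor k (S.ε (gL.symm a : S.SL)) (S'.ε S'.i1)) = 0 := fun a => by
    rw [hS _ _ (hid _) (hid' _), h2L]
  have hTL : ∀ a c, Module.finrank k (cor k (S.ε (gT.symm a : S.ST))
      (S.ε (gL.symm c : S.SL))) = 0 := fun a c => by
    rw [S.zero]; intro h
    exact (Finset.disjoint_left.1 S.dis) (hgL c) (h ▸ hgT a)
  have hLT : ∀ a c, Module.finrank k (cor k (S.ε (gL.symm c : S.SL))
      (S.ε (gT.symm a : S.ST))) = 0 := fun a c => by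
    rw [S.zero]; intro h
    exact (Finset.disjoint_left.1 S.dis) (hgL c) (h ▸ hgT a)
  have hTT : ∀ a c, Module.finrank k (cor k (S.ε (gT.symm c : S.ST))
      (S.ε (gT.symm a : S.ST))) = if a = c then 4 else 0 := fun a c => by
    by_cases h : a = c
    · rw [if_pos h, h, S.four_T S' _ (hgT c)]
    · rw [if_neg h, S.zero _ _ (hgTi c a (Ne.symm h))]
  have hLL : ∀ a c, Module.finrank k (cor k (S.ε (gL.symm c : S.SL))
      (S.ε (gL.symm a : S.SL))) = if a = c then 1 else 0 := fun a c => by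
    by_cases h : a = c
    · rw [if_pos h, h, S.one_L S' _ (hgL c)]
    · rw [if_neg h, S.zero _ _ (hgLi c a (Ne.symm h))]
  refine ⟨fun i => match i with
    | .inl 0 => b
    | .inl 1 => S.ε S.i1
    | .inl 2 => S'.ε S'.i1
    | .inr (.inl a) => S.ε (gT.symm a : S.ST)
    | .inr (.inr a) => S.ε (gL.symm a : S.SL), ?_, ?_, ?_⟩
  · rintro (i | i | i)
    · fin_cases i
      · exact hb
      · exact S.loc _
      · exact S'.loc _
    · exact S.loc _
    · exact S.loc _
  · rintro (i | i | i) (j | j | j)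
    · fin_cases i <;> fin_cases j
      · exact hb2
      · exact hb1
      · exact hb1'
      · exact hb1s
      · exact h3
      · exact h2
      · exact hb1s'
      · exact h2'
      · exact h3'
    · fin_cases i
      · exact hbT j
      · exact hT1 j
      · exact hT2 j
    · fin_cases i
      · exact hbL j
      · exact hL1 j
      · exact hL2 j
    · fin_cases j
      · exact hTb i
      · exact h1T i
      · exact h2T i
    · exact hTT i j
    · exact hLT i j
    · fin_cases j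
      · exact hLb i
      · exact h1L i
      · exact h2L i
    · exact hTL j i
    · exact hLL i j
  · intro M _ _ hM
    -- from an index of `S` to the family
    have hcase : ∀ i : Fin S.n, (∃ m : M, S.ε i • m ≠ 0) → ∃ i' : Fin 3 ⊕ Fin ((m - 1) / 2) ⊕
        Fin (2 * m - 1), ∃ m : M, (match i' with
          | .inl 0 => b
          | .inl 1 => S.ε S.i1
          | .inl 2 => S'.ε S'.i1
          | .inr (.inl a) => S.ε (gT.symm a : S.ST)
          | .inr (.inr a) => S.ε (gL.symm a : S.SL) : A) • m ≠ 0 := by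
      intro i hi
      rcases S.cov i with rfl | h | h
      · exact ⟨.inl 1, hi⟩
      · refine ⟨.inr (.inr (gL ⟨i, h⟩)), ?_⟩
        simpa using hi
      · refine ⟨.inr (.inl (gT ⟨i, h⟩)), ?_⟩
        simpa using hi
    rcases hfull M hM with h | ⟨m', h⟩ | ⟨m', h⟩
    · exact ⟨.inl 0, h⟩
    · obtain ⟨j, hj⟩ : ∃ j, S.ε j • m' ≠ 0 := by
        by_contra hcon
        push Not at hcon
        apply h
        rw [← S.sum, Finset.sum_smul]
        exact Finset.sum_eq_zero fun j _ => hcon j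
      exact hcase j ⟨m', hj⟩
    · obtain ⟨j, hj⟩ : ∃ j, S'.ε j • m' ≠ 0 := by
        by_contra hcon
        push Not at hcon
        apply h
        rw [← S'.sum, Finset.sum_smul]
        exact Finset.sum_eq_zero fun j _ => hcon j
      by_cases hj1 : j = S'.i1
      · subst hj1
        exact ⟨.inl 2, m', hj⟩
      · obtain ⟨i, hE, _⟩ := S'.exEqv S j ((S'.cov j).resolve_left hj1)
        exact hcase i (hE.symm.act M ⟨m', hj⟩)

end SD

end alg

section side
variable {q : ℕ} [Fact q.Prime] {G : Type} [Group G] (D : BN q G)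
  {k : Type u} [Field k] [IsAlgClosed k] [CharP k 2] (ψ : AddChar (ZMod q) k)

open Classical in
theorem side (m : ℕ) (hm : Odd m) (hq : q + 1 = 8 * m) (hψ : ψ.IsPrimitive) :
    ∃ (n : ℕ) (ε : Fin n → MonoidAlgebra k G) (i1 : Fin n) (SL ST : Finset (Fin n)),
      (∀ i, IsLoc k (ε i)) ∧ (∀ i, ε i ∈ cor k (eU D ψ 1) (eU D ψ 1)) ∧
      (∀ i j, i ≠ j → ε i * ε j = 0) ∧ ∑ i, ε i = eU D ψ 1 ∧
      (∀ i j, i ≠ j → Module.finrank k (cor k (ε i) (ε j)) = 0) ∧
      i1 ∉ SL ∧ i1 ∉ ST ∧ Disjoint SL ST ∧ (∀ i, i = i1 ∨ i ∈ SL ∨ i ∈ ST) ∧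
      SL.card = 2 * m - 1 ∧ ST.card = (m - 1) / 2 ∧
      (∀ i, Module.finrank k (cor k (ε i) (eB D (1 : (ZMod q)ˣ →* kˣ))) =
        if i = i1 then 1 else 0) ∧
      (∀ i ∈ SL, Module.finrank k (cor k (ε i) (ε i)) +
        Module.finrank k (cor k (eU D ψ (-1)) (ε i)) = 2) ∧
      (∀ i ∈ ST, Module.finrank k (cor k (ε i) (ε i)) +
        Module.finrank k (cor k (eU D ψ (-1)) (ε i)) = 8) ∧
      (Module.finrank k (cor k (ε i1) (ε i1)) +
        Module.finrank k (cor k (eU D ψ (-1)) (ε i1)) = 5) ∧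
      (∑ i, Module.finrank k (cor k (ε i) (ε i)) = 4 * m) ∧
      (∀ i, i ∈ SL ∨ i ∈ ST → ∃ (M : Type u) (_ : AddCommGroup M)
        (_ : Module (MonoidAlgebra k G) M), IsSimpleModule (MonoidAlgebra k G) M ∧
        (∃ m : M, ε i • m ≠ 0) ∧ ∃ m : M, eU D ψ (-1) • m ≠ 0) := by
  have hqm : q % 4 = 3 := by omega
  have hq2 : q ≠ 2 := by omega
  have hGf : Finite G := BN_finite D
  have hfd : FiniteDimensional k (MonoidAlgebra k G) := inferInstance
  set A := MonoidAlgebra k G with hA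
  set e : A := eU D ψ 1 with he
  set e' : A := eU D ψ (-1) with he'
  have hee : e * e = e := by rw [he, eU_mul D ψ hq2 hψ, if_pos rfl]
  have he'e' : e' * e' = e' := by rw [he', eU_mul D ψ hq2 hψ, if_pos rfl]
  obtain ⟨n, ε, hloc, hmem, horth, hsum⟩ := DEC (k := k) e hee
  have hid : ∀ i, ε i * ε i = ε i := fun i => (hloc i).2.1
  have hcomm : ∀ x ∈ cor k e e, ∀ y ∈ cor k e e, x * y = y * x := fun x hx y hy =>
    cor11_comm D ψ hqm hψ x y hx hy
  have hzero : ∀ i j, i ≠ j → Module.finrank k (cor k (ε i) (ε j)) = 0 := fun i j hij =>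
    cor_zero hcomm hmem horth hij
  -- eigenvectors
  have hassign : ∀ (M : Type u) [AddCommGroup M] [Module A M] (x : M) (K : (ZMod q)ˣ → k),
      x ≠ 0 → e • x = x → (∀ a, hk D ψ a • x = algebraMap k A (K a) • x) →
      ∃ i, ε i • x = x ∧ ∀ j, j ≠ i → ε j • x = 0 := by
    intro M _ _ x K hx hex hK
    refine assign (k := k) hid horth hsum hx hex fun i => ?_
    obtain ⟨c0, c, hc⟩ := cor11_span D ψ hqm hψ (ε i) (hmem i)
    refine ⟨c0 + ∑ a, c a * K a, ?_⟩
    conv_lhs => rw [hc]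
    rw [add_smul, smul_algebraMap, hex, Finset.sum_smul, map_add, add_smul, map_sum,
      Finset.sum_smul]
    congr 1
    refine Finset.sum_congr rfl fun a _ => ?_
    rw [smul_algebraMap, hK, smul_smul, ← map_mul]
  have hsame : ∀ (M M' : Type u) [AddCommGroup M] [Module A M] [AddCommGroup M'] [Module A M']
      (x : M) (x' : M') (K K' : (ZMod q)ˣ → k) (i : Fin n), x ≠ 0 → x' ≠ 0 →
      ε i • x = x → ε i • x' = x' → (∀ a, hk D ψ a • x = algebraMap k A (K a) • x) →
      (∀ a, hk D ψ a • x' = algebraMap k A (K' a) • x') → ∀ a, K a = K' a := by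
    intro M M' _ _ _ _ x x' K K' i hx hx' h1 h1' hK hK' a
    have hkm : hk D ψ a ∈ cor k e e := by
      constructor
      · rw [hk, ← he]; simp only [← mul_assoc]; rw [hee]
      · rw [hk, ← he, mul_assoc, hee]
    exact same_eig (hloc i) (hcomm _ hkm _ (hmem i)) hx hx' h1 h1' (hK a) (hK' a)
  -- the vectors of the characters `l`
  set ml : ((ZMod q)ˣ →* kˣ) → A := fun l => e * gw D * eB D l with hml
  have hml0 : ∀ l, ml l ≠ 0 := fun l => eig_ne D ψ hqm hψ l 1
  have hmle : ∀ l, e • ml l = ml l := fun l => by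
    rw [smul_eq_mul, hml]; simp only [← mul_assoc]; rw [hee]
  have hmlK : ∀ l a, hk D ψ a • ml l = algebraMap k A (Kl ψ l a) • ml l := fun l a => by
    rw [smul_eq_mul, smul_eq_mul, ← Algebra.smul_def]
    exact eig D ψ hqm hψ l a
  choose iL hiL hiL' using fun l => hassign A (ml l) (Kl ψ l) (hml0 l) (hmle l) (hmlK l)
  have hiLinj : ∀ l l', iL l = iL l' → l' = l ∨ l' = l⁻¹ := fun l l' h =>
    FOUR1 ψ hqm hψ l l' (hsame A A (ml l) (ml l') _ _ (iL l) (hml0 l) (hml0 l') (hiL l)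
      (by rw [h]; exact hiL l') (hmlK l) (hmlK l'))
  -- the cuspidal modules
  choose MT instM1 instM2 hMs hMe hMe' using
    fun θ : {θ : T1 q →* kˣ // θ ≠ 1} => WEIL D ψ hqm hψ θ.1 θ.2
  choose mt hmt0 hmte hmtK using hMe
  choose iT0 hiT0 hiT0' using fun θ => hassign (MT θ) (mt θ) (Kt ψ θ.1) (hmt0 θ) (hmte θ) (hmtK θ)
  set iT : (T1 q →* kˣ) → Fin n := fun θ => if h : θ ≠ 1 then iT0 ⟨θ, h⟩ else iL 1 with hiTdef
  have hiTeq : ∀ θ (h : θ ≠ 1), iT θ = iT0 ⟨θ, h⟩ := fun θ h => by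
    simp only [hiTdef]; rw [dif_pos h]
  have hiTinj : ∀ θ θ', θ ≠ 1 → θ' ≠ 1 → iT θ = iT θ' → θ' = θ ∨ θ' = θ⁻¹ := by
    intro θ θ' h h' hi
    rw [hiTeq θ h, hiTeq θ' h'] at hi
    exact FOUR2 ψ hqm hψ θ θ' (hsame _ _ (mt ⟨θ, h⟩) (mt ⟨θ', h'⟩) _ _ (iT0 ⟨θ, h⟩) (hmt0 _)
      (hmt0 _) (hiT0 _) (by rw [hi]; exact hiT0 _) (hmtK _) (hmtK _))
  have hLT : ∀ l θ (h : θ ≠ 1), iL l ≠ iT θ := by
    intro l θ h hi
    rw [hiTeq θ h] at hi
    obtain ⟨a, ha⟩ := FOUR3 ψ hqm hψ θ h l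
    exact ha (hsame _ _ (mt ⟨θ, h⟩) (ml l) _ _ (iT0 ⟨θ, h⟩) (hmt0 _)
      (hml0 _) (hiT0 _) (by rw [← hi]; exact hiL _) (hmtK _) (hmlK _) a)
  -- the two finsets
  obtain ⟨SL, hSL, hSLc⟩ := HOMC_half (k := k) (C := (ZMod q)ˣ) 1 (4 * m - 1)
    (by rw [Nat.odd_iff] at hm ⊢; omega)
    (by rw [Nat.card_eq_fintype_card, ZMod.card_units_eq_totient, Nat.totient_prime Fact.out]
        omega) iL (fun l l' _ _ h => hiLinj l l' h)
  obtain ⟨hcyc, hT1c⟩ := T1_cyclic q
  have hT1f : Finite (T1 q) := Nat.finite_of_card_ne_zero (by rw [hT1c]; omega)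
  obtain ⟨ST, hST, hSTc⟩ := HOMC_half (k := k) (C := T1 q) 3 m hm (by rw [hT1c, hq]; norm_num)
    iT hiTinj
  have h1L : iL 1 ∉ SL := by
    rw [hSL]
    rintro ⟨l, hl, h⟩
    rcases hiLinj l 1 h with h' | h'
    · exact hl h'.symm
    · exact hl (by rw [← inv_inv l, ← h']; simp)
  have h1T : iL 1 ∉ ST := by
    rw [hST]
    rintro ⟨θ, hθ, h⟩
    exact hLT 1 θ hθ h.symm
  have hdis : Disjoint SL ST := by
    rw [Finset.disjoint_left]
    intro i h1 h2
    rw [hSL] at h1
    rw [hST] at h2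
    obtain ⟨l, _, rfl⟩ := h1
    obtain ⟨θ, hθ, h⟩ := h2
    exact hLT l θ hθ h.symm
  -- ranks
  set x : Fin n → ℕ := fun i => Module.finrank k (cor k (ε i) (ε i)) with hx
  set y : Fin n → ℕ := fun i => Module.finrank k (cor k e' (ε i)) with hy
  have hx1 : ∀ i, 1 ≤ x i := fun i => loc_pos (hloc i)
  have hxe : ∀ i, Module.finrank k (cor k e (ε i)) = x i := by
    intro i
    rw [← hsum, finrank_cor_sum_left ε hid horth, Finset.sum_eq_single i]
    · intro j _ hj; exact hzero j i hj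
    · intro h; exact absurd (Finset.mem_univ i) h
  have hxsum : ∑ i, x i = 4 * m := by
    have h1 := cor11_rank D ψ hqm hψ
    rw [← he] at h1
    have h2 : Module.finrank k (cor k e e) = ∑ i, Module.finrank k (cor k e (ε i)) := by
      conv_lhs => rw [← hsum]
      rw [← finrank_cor_sum_right ε hid horth, hsum]
    rw [h2] at h1
    simp only [hxe] at h1
    omega
  have hysum : ∑ i, y i = 4 * m - 1 := by
    have h1 := corm1_rank D ψ hqm hψ
    rw [← he, ← he'] at h1
    have h2 : Module.finrank k (cor k e' e) = ∑ i, Module.finrank k (cor k e' (ε i)) := by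
      rw [← finrank_cor_sum_right ε hid horth, hsum]
    rw [h2] at h1
    have h3 : ∑ i, y i = (q - 1) / 2 := h1
    omega
  have hlrank : ∀ l i, Module.finrank k (cor k (ε i) (eB D l)) = if i = iL l then 1 else 0 := by
    intro l i
    have h1 := corUB_rank D ψ hqm hψ l 1 one_ne_zero
    rw [← he, ← hsum, finrank_cor_sum_left ε hid horth] at h1
    have h2 : 1 ≤ Module.finrank k (cor k (ε (iL l)) (eB D l)) := by
      refine cor_pos (x := ml l) ⟨hiL l, ?_⟩ (hml0 l)
      rw [hml]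
      simp only
      rw [mul_assoc, eB_mul D l hqm l, if_pos rfl]
    rw [← Finset.add_sum_erase _ _ (Finset.mem_univ (iL l))] at h1
    by_cases hi : i = iL l
    · rw [if_pos hi, hi]; omega
    · rw [if_neg hi]
      have h3 : ∑ j ∈ Finset.univ.erase (iL l), Module.finrank k (cor k (ε j) (eB D l)) = 0 := by
        omega
      rw [Finset.sum_eq_zero_iff] at h3
      exact h3 i (Finset.mem_erase.2 ⟨hi, Finset.mem_univ i⟩)
  have heBid : ∀ l : (ZMod q)ˣ →* kˣ, eB D l * eB D l = eB D l := fun l => by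
    rw [eB_mul D l hqm l, if_pos rfl]
  have hfinL : Finite ((ZMod q)ˣ →* kˣ) := by
    refine Nat.finite_of_card_ne_zero ?_
    rw [HOMC (k := k) (C := (ZMod q)ˣ) 1 (4 * m - 1)
      (by rw [Nat.odd_iff] at hm ⊢; omega)
      (by rw [Nat.card_eq_fintype_card, ZMod.card_units_eq_totient, Nat.totient_prime Fact.out]
          omega)]
    omega
  have hcardP : ∃ P : Subgroup G, Nat.card P = 8 := by
    have h1 := BN_card hq2 D
    have h2 : 2 ^ 3 ∣ Nat.card G := by
      have h3 : (2 : ℕ) * Nat.card G = 2 * (8 * (m * q * ((q - 1) / 2))) := by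
        rw [h1, hq]
        have : q - 1 = 2 * ((q - 1) / 2) := by omega
        rw [this]
        simp only [Nat.mul_div_cancel_left _ (by norm_num : 0 < 2)]
        ring
      have h4 := Nat.eq_of_mul_eq_mul_left (by norm_num) h3
      rw [h4]
      exact Dvd.intro _ rfl
    have : Fact (Nat.Prime 2) := ⟨Nat.prime_two⟩
    obtain ⟨P, hP⟩ := Sylow.exists_subgroup_card_pow_prime 2 h2
    exact ⟨P, by rw [hP]; norm_num⟩
  obtain ⟨P, hP⟩ := hcardP
  have : Fintype ((ZMod q)ˣ →* kˣ) := Fintype.ofFinite _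
  have hdim : ∀ i, 8 ∣ (Finset.univ.filter fun l => i = iL l).card + (4 * m - 1) * (x i + y i) := by
    intro i
    have h1 := DIV8 P hP (ε i) (hid i)
    rw [borel_rank D ψ hqm hψ (ε i) (hid i), finsum_eq_sum_of_fintype] at h1
    have h2 : ∀ l, Module.finrank k (cor k (eB D l) (ε i)) = if i = iL l then 1 else 0 := fun l => by
      rw [SYM (eB D l) (ε i) (heBid l) (hid i), hlrank]
    simp only [h2] at h1
    rw [← Finset.card_filter, ← he, hxe, ← he'] at h1
    have h3 : (q - 1) / 2 = 4 * m - 1 := by omega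
    rwa [h3] at h1
  obtain ⟨r, hr⟩ := hm
  have hT8 : ∀ i ∈ ST, 8 ≤ x i + y i := by
    intro i hi
    have h1 := hdim i
    have h2 : (Finset.univ.filter fun l => i = iL l).card = 0 := by
      rw [Finset.card_eq_zero, Finset.filter_eq_empty_iff]
      intro l _ h
      rw [hST] at hi
      obtain ⟨θ, hθ, h'⟩ := hi
      exact hLT l θ hθ (by rw [h', h])
    rw [h2, zero_add] at h1
    have h3 : Nat.Coprime 8 (4 * m - 1) := by
      have : Nat.Coprime (2 ^ 3) (4 * m - 1) := by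
        apply Nat.Coprime.pow_left
        rw [Nat.coprime_two_left, Nat.odd_iff]
        omega
      exact this
    have h4 := h3.dvd_of_dvd_mul_left h1
    have h5 := hx1 i
    exact Nat.le_of_dvd (by omega) h4
  have h15 : 5 ≤ x (iL 1) + y (iL 1) := by
    have h1 := hdim (iL 1)
    have h2 : (Finset.univ.filter fun l => iL 1 = iL l).card = 1 := by
      rw [Finset.card_eq_one]
      refine ⟨1, ?_⟩
      ext l
      simp only [Finset.mem_filter, Finset.mem_univ, true_and, Finset.mem_singleton]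
      constructor
      · intro h
        rcases hiLinj 1 l h with h' | h'
        · exact h'
        · rw [h']; ext a; simp
      · rintro rfl; rfl
    rw [h2, hr] at h1
    obtain ⟨t, ht⟩ := h1
    have h6 : (4 * (2 * r + 1) - 1) * (x (iL 1) + y (iL 1)) =
        8 * (r * (x (iL 1) + y (iL 1))) + 3 * (x (iL 1) + y (iL 1)) := by
      have : 4 * (2 * r + 1) - 1 = 8 * r + 3 := by omega
      rw [this]; ring
    rw [h6] at ht
    generalize r * (x (iL 1) + y (iL 1)) = z at ht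
    omega
  -- simple modules
  have hsimpl : ∀ l, l ≠ 1 → IsSimpleModule A (Submodule.span A {eB D l} : Submodule A A) :=
    fun l hl => SIMP (eB D l) (heBid l) (eBl_loc D hqm l hl).1 (eBl_loc D hqm l hl).2
  have hmodL : ∀ i ∈ SL, ∃ (M : Type u) (_ : AddCommGroup M) (_ : Module A M),
      IsSimpleModule A M ∧ (∃ m : M, ε i • m ≠ 0) ∧ ∃ m : M, e' • m ≠ 0 := by
    intro i hi
    rw [hSL] at hi
    obtain ⟨l, hl, rfl⟩ := hi
    refine ⟨(Submodule.span A {eB D l} : Submodule A A), inferInstance, inferInstance,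
      hsimpl l hl, ⟨⟨ml l, ?_⟩, ?_⟩, ⟨⟨e' * gw D * eB D l, ?_⟩, ?_⟩⟩
    · exact Submodule.mem_span_singleton.2 ⟨e * gw D, rfl⟩
    · intro h
      have := congrArg Subtype.val h
      exact hml0 l ((hiL l).symm.trans this)
    · exact Submodule.mem_span_singleton.2 ⟨e' * gw D, rfl⟩
    · intro h
      have h1 := congrArg Subtype.val h
      have h2 : e' * (e' * gw D * eB D l) = 0 := h1
      rw [← mul_assoc, ← mul_assoc, he'e'] at h2
      exact eig_ne D ψ hqm hψ l (-1) h2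
  have hmodT : ∀ i ∈ ST, ∃ (M : Type u) (_ : AddCommGroup M) (_ : Module A M),
      IsSimpleModule A M ∧ (∃ m : M, ε i • m ≠ 0) ∧ ∃ m : M, e' • m ≠ 0 := by
    intro i hi
    rw [hST] at hi
    obtain ⟨θ, hθ, rfl⟩ := hi
    obtain ⟨m', hm'0, hm'⟩ := hMe' ⟨θ, hθ⟩
    refine ⟨MT ⟨θ, hθ⟩, instM1 _, instM2 _, hMs _, ⟨mt _, ?_⟩, ⟨m', ?_⟩⟩
    · rw [hiTeq θ hθ, hiT0]; exact hmt0 _
    · rw [hm']; exact hm'0
  have hL2 : ∀ i ∈ SL, 2 ≤ x i + y i := by
    intro i hi
    have h1 := hx1 i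
    obtain ⟨M, i1, i2, hM, ⟨a, ha⟩, ⟨b, hb⟩⟩ := hmodL i hi
    -- a nonzero element of `e' A ε i`
    have h2 : Submodule.span A {ε i • a} = ⊤ := by
      have := hM.1.2 (Submodule.span A {ε i • a})
      rcases this with h | h
      · exfalso
        rw [Submodule.span_singleton_eq_bot] at h
        exact ha h
      · exact h
    have h3 : b ∈ Submodule.span A {ε i • a} := by rw [h2]; trivial
    obtain ⟨c, hc⟩ := Submodule.mem_span_singleton.1 h3
    have h4 : 1 ≤ y i := by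
      refine cor_pos (x := e' * c * ε i) ⟨?_, ?_⟩ ?_
      · rw [← mul_assoc, ← mul_assoc, he'e']
      · rw [mul_assoc, hid]
      · intro h
        apply hb
        rw [← hc, smul_smul, smul_smul, h, zero_smul]
    omega
  -- counting
  have htot : ∑ i, (x i + y i) = 8 * m - 1 := by
    rw [Finset.sum_add_distrib, hxsum, hysum]; omega
  set U : Finset (Fin n) := insert (iL 1) (SL ∪ ST) with hU
  have hUsum : ∑ i ∈ U, (x i + y i) = (x (iL 1) + y (iL 1)) +
      (∑ i ∈ SL, (x i + y i) + ∑ i ∈ ST, (x i + y i)) := by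
    rw [hU, Finset.sum_insert (by rw [Finset.mem_union]; tauto), Finset.sum_union hdis]
  have hrest : ∑ i ∈ U, (x i + y i) + ∑ i ∈ Finset.univ \ U, (x i + y i) = 8 * m - 1 := by
    rw [add_comm, Finset.sum_sdiff (Finset.subset_univ U), htot]
  have hLs : 2 * SL.card ≤ ∑ i ∈ SL, (x i + y i) := by
    have := Finset.card_nsmul_le_sum SL (fun i => x i + y i) 2 hL2
    rwa [smul_eq_mul, mul_comm] at this
  have hTs : 8 * ST.card ≤ ∑ i ∈ ST, (x i + y i) := by
    have := Finset.card_nsmul_le_sum ST (fun i => x i + y i) 8 hT8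
    rwa [smul_eq_mul, mul_comm] at this
  have hcL : (4 * m - 1 - 1) / 2 ≤ SL.card := hSLc
  have hrestz : ∑ i ∈ Finset.univ \ U, (x i + y i) = 0 := by omega
  have hcov : ∀ i, i ∈ U := by
    intro i
    by_contra hi
    rw [Finset.sum_eq_zero_iff] at hrestz
    have := hrestz i (Finset.mem_sdiff.2 ⟨Finset.mem_univ i, hi⟩)
    have := hx1 i
    omega
  have hLeq : ∑ i ∈ SL, (x i + y i) = 2 * SL.card := by omega
  have hTeq : ∑ i ∈ ST, (x i + y i) = 8 * ST.card := by omega
  have eqL : ∀ i ∈ SL, x i + y i = 2 := by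
    have h1 : ∑ i ∈ SL, 2 = ∑ i ∈ SL, (x i + y i) := by
      rw [hLeq, Finset.sum_const, smul_eq_mul, mul_comm]
    have := (Finset.sum_eq_sum_iff_of_le hL2).1 h1
    intro i hi; exact (this i hi).symm
  have eqT : ∀ i ∈ ST, x i + y i = 8 := by
    have h1 : ∑ i ∈ ST, 8 = ∑ i ∈ ST, (x i + y i) := by
      rw [hTeq, Finset.sum_const, smul_eq_mul, mul_comm]
    have := (Finset.sum_eq_sum_iff_of_le hT8).1 h1
    intro i hi; exact (this i hi).symm
  refine ⟨n, ε, iL 1, SL, ST, hloc, hmem, horth, hsum, hzero, h1L, h1T, hdis, ?_, by omega,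
    by omega, fun i => hlrank 1 i, eqL, eqT, ?_, hxsum, ?_⟩
  · intro i
    have := hcov i
    rw [hU, Finset.mem_insert, Finset.mem_union] at this
    exact this
  · show x (iL 1) + y (iL 1) = 5
    omega
  · rintro i (hi | hi)
    · exact hmodL i hi
    · exact hmodT i hi


open Classical in
theorem sideSD (m : ℕ) (hm : Odd m) (hq : q + 1 = 8 * m) (hψ : ψ.IsPrimitive) :
    Nonempty (SD k (MonoidAlgebra k G) (eB D (1 : (ZMod q)ˣ →* kˣ)) (eU D ψ 1) (eU D ψ (-1)) m) := by
  obtain ⟨n, ε, i1, SL, ST, loc, mem, orth, sum, zero, nL, nT, dis, cov, cL, cT, rb, rL, rT, r1,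
    rs, smp⟩ := side D ψ m hm hq hψ
  exact ⟨⟨n, ε, i1, SL, ST, loc, orth, sum, zero, nL, nT, dis, cov, cL, cT,
    fun i => by rw [rb i], rL, rT, r1, rs, smp⟩⟩

omit [IsAlgClosed k] [CharP k 2] in
lemma eU_inv (c : ZMod q) : eU D ψ⁻¹ c = eU D ψ (-c) := by
  unfold eU
  refine Finset.sum_congr rfl fun x _ => ?_
  rw [AddChar.inv_apply]
  congr 2
  ring

omit [IsAlgClosed k] [CharP k 2] in
lemma prim_inv (hψ : ψ.IsPrimitive) : ψ⁻¹.IsPrimitive := by
  intro a ha h
  apply hψ ha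
  have h1 : (ψ⁻¹.mulShift a)⁻¹ = 1 := by rw [h, inv_one]
  rw [← h1]
  ext x
  simp [AddChar.mulShift_apply, AddChar.inv_apply]

end side

end ASMG

/-- the Cartan matrix of `PSL(2,q)`, `q = 8m-1`, `m` odd, in characteristic 2 -/
theorem ASMG (q m : ℕ) [Fact q.Prime] (hm : Odd m) (hq : q + 1 = 8 * m) (k : Type u) [Field k]
    [IsAlgClosed k] [CharP k 2] :
    IdemCartan k (MonoidAlgebra k PSL(2, ZMod q)) (Cm (Fin ((m - 1) / 2)) (Fin (2 * m - 1))) := by
  have hq4 : q % 4 = 3 := by omega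
  have hq2 : q ≠ 2 := by omega
  obtain ⟨D⟩ := PSLB q hq2
  have hGf : Finite PSL(2, ZMod q) := BN_finite D
  have hk : ((q : ℕ) : k) ≠ 0 := by
    intro h
    rw [CharP.cast_eq_zero_iff k 2] at h
    omega
  have : NeZero ((q : ℕ) : k) := ⟨hk⟩
  have : NeZero q := ⟨(Fact.out : q.Prime).ne_zero⟩
  obtain ⟨ζ, hζ⟩ := HasEnoughRootsOfUnity.exists_primitiveRoot k q
  set ψ : AddChar (ZMod q) k := AddChar.zmodChar q ((IsPrimitiveRoot.iff_def ζ q).mp hζ).left
  have hψ : ψ.IsPrimitive := AddChar.zmodChar_primitive_of_primitive_root q hζ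
  obtain ⟨S⟩ := ASMG.sideSD D ψ m hm hq hψ
  obtain ⟨S'⟩ := ASMG.sideSD D ψ⁻¹ m hm hq (ASMG.prim_inv ψ hψ)
  rw [ASMG.eU_inv, ASMG.eU_inv, neg_neg] at S'
  exact S.merge S' hm (fun e f he hf => SYM e f he hf) (eB1_loc D hq4).1 (eB1_loc D hq4).2
    (fun M _ _ hM => FULLG D ψ hq4 hψ M hM)

end CM
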