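import Mathlib

/-!
# Cartan matrices of group algebras in characteristic 2: definitions

Project CM (MP_bea28b_al): the simple group `PSL(2,967)` and the group `11^{3+3} : PSL(2,7)` have
the same 2-modular Cartan matrix.
-/

set_option autoImplicit false

open scoped Matrix MatrixGroups

universe u

namespace CM

/-! ### Cartan matrices -/

/-- the simple module `S` occurs exactly `n` times as a composition factor in some
composition series of `M` -/
def HasMult (A : Type u) [Ring A] (M S : Type u) [AddCommGroup M] [Module A M]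
    [AddCommGroup S] [Module A S] (n : ℕ) : Prop :=
  ∃ s : CompositionSeries (Submodule A M), s.head = ⊥ ∧ s.last = ⊤ ∧
    Nat.card {i : Fin s.length //
      Nonempty ((s i.succ ⧸ (s i.castSucc).submoduleOf (s i.succ)) ≃ₗ[A] S)} = n

/-- `π : P → S` is a projective cover -/
structure IsProjCover (A : Type u) [Ring A] {P S : Type u} [AddCommGroup P] [Module A P]
    [AddCommGroup S] [Module A S] (π : P →ₗ[A] S) : Prop where
  proj : Module.Projective A P
  surj : Function.Surjective π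
  ess : ∀ X : Submodule A P, X ⊔ LinearMap.ker π = ⊤ → X = ⊤

/-- `C` is the Cartan matrix of the ring `A` (for some labelling of the simple modules by `ι`):
`S i` are representatives of the isomorphism classes of simple modules, `P i` is a projective
cover of `S i`, and `C i j` is the multiplicity of `S j` as a composition factor of `P i`. -/
def IsCartan (A : Type u) [Ring A] {ι : Type} (C : Matrix ι ι ℕ) : Prop :=
  ∃ S P : ι → ModuleCat.{u} A,
    (∀ i, IsSimpleModule A (S i)) ∧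
    (∀ i j, Nonempty (S i ≃ₗ[A] S j) → i = j) ∧
    (∀ M : ModuleCat.{u} A, IsSimpleModule A M → ∃ i, Nonempty (M ≃ₗ[A] S i)) ∧
    (∀ i, ∃ π : P i →ₗ[A] S i, IsProjCover A π) ∧
    ∀ i j, HasMult A (P i) (S j) (C i j)

/-! ### idempotents -/

section idem
variable (k : Type*) {A : Type*} [CommRing k] [Ring A] [Algebra k A]

/-- the Peirce component `e A f` (for idempotents `e`, `f`) -/
def cor (e f : A) : Submodule k A where
  carrier := {x | e * x = x ∧ x * f = x}
  add_mem' := by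
    rintro x y ⟨h1, h2⟩ ⟨h3, h4⟩
    exact ⟨by rw [mul_add, h1, h3], by rw [add_mul, h2, h4]⟩
  zero_mem' := ⟨mul_zero _, zero_mul _⟩
  smul_mem' := by
    rintro c x ⟨h1, h2⟩
    exact ⟨by rw [mul_smul_comm, h1], by rw [smul_mul_assoc, h2]⟩

variable {k} in
lemma mem_cor {e f x : A} : x ∈ cor k e f ↔ e * x = x ∧ x * f = x := Iff.rfl

/-- a local idempotent with residue field `k`: `e A e = k e + nilpotent elements` -/
def IsLoc (e : A) : Prop := e ≠ 0 ∧ e * e = e ∧ ∀ x ∈ cor k e e, ∃ c : k, IsNilpotent (x - c • e)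

/-- equivalence of idempotents (`A e ≅ A f`) -/
def Eqv (e f : A) : Prop :=
  ∃ x y : A, (e * x = x ∧ x * f = x) ∧ (f * y = y ∧ y * e = y) ∧ x * y = e ∧ y * x = f

end idem

/-- `C` is realised by a full family of local idempotents: `C i j = dim ε_j A ε_i` -/
def IdemCartan (k A : Type u) [Field k] [Ring A] [Algebra k A] {ι : Type} (C : Matrix ι ι ℕ) :
    Prop :=
  ∃ ε : ι → A, (∀ i, IsLoc k (ε i)) ∧
    (∀ i j, Module.finrank k (cor k (ε j) (ε i)) = C i j) ∧
    ∀ (M : Type u) [AddCommGroup M] [Module A M], IsSimpleModule A M →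
      ∃ i, ∃ m : M, ε i • m ≠ 0

/-- the Cartan matrix of the principal block -/
def C3 : Matrix (Fin 3) (Fin 3) ℕ := !![2, 1, 1; 1, 3, 2; 1, 2, 3]

/-- the Cartan matrix with one block `C3`, `|α|` blocks `(4)` and `|β|` blocks `(1)` -/
def Cm (α β : Type) [DecidableEq α] [DecidableEq β] :
    Matrix (Fin 3 ⊕ α ⊕ β) (Fin 3 ⊕ α ⊕ β) ℕ := fun i j =>
  match i, j with
  | .inl i, .inl j => C3 i j
  | .inr (.inl a), .inr (.inl b) => if a = b then 4 else 0
  | .inr (.inr a), .inr (.inr b) => if a = b then 1 else 0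
  | _, _ => 0

/-! ### the group `PSL(2,q)` in terms of its Bruhat normal form -/

/-- `G` is generated by `n x` (upper unitriangular), `d a` (diagonal) and `w` with the relations
of `PSL(2,q)`; every element has a unique Bruhat normal form (up to the sign of `a`) -/
structure BN (q : ℕ) (G : Type) [Group G] where
  n : ZMod q → G
  d : (ZMod q)ˣ → G
  w : G
  n_add : ∀ x y, n (x + y) = n x * n y
  d_mul : ∀ a b, d (a * b) = d a * d b
  d_neg : d (-1) = 1
  dn : ∀ a x, d a * n x = n ((a : ZMod q) ^ 2 * x) * d a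
  ww : w * w = 1
  wd : ∀ a, w * d a = d a⁻¹ * w
  wnw : ∀ a : (ZMod q)ˣ, w * n (a : ZMod q) * w =
    n (-((a⁻¹ : (ZMod q)ˣ) : ZMod q)) * w * d a * n (-((a⁻¹ : (ZMod q)ˣ) : ZMod q))
  cover : ∀ g, (∃ x a, g = n x * d a) ∨ ∃ x a y, g = n x * w * d a * n y
  inj1 : ∀ x a x' a', n x * d a = n x' * d a' → x = x' ∧ (a = a' ∨ a = -a')
  inj2 : ∀ x a y x' a' y', n x * w * d a * n y = n x' * w * d a' * n y' →
    x = x' ∧ (a = a' ∨ a = -a') ∧ y = y'
  disj : ∀ x a x' a' y', n x * d a ≠ n x' * w * d a' * n y'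

section PSL
variable {q : ℕ} [Fact q.Prime] {G : Type} [Group G] (D : BN q G)
variable {k : Type u} [Field k] (ψ : AddChar (ZMod q) k)

/-- the idempotent `(1/q) ∑_x ψ(-cx) n(x)` of the unipotent group (`1/q = 1` in `k`) -/
noncomputable def eU (c : ZMod q) : MonoidAlgebra k G :=
  ∑ x : ZMod q, MonoidAlgebra.single (D.n x) (ψ (-(c * x)))

/-- the squares in `(ZMod q)ˣ` -/
noncomputable def Sq (q : ℕ) [Fact q.Prime] : Finset (ZMod q)ˣ :=
  open Classical in Finset.univ.filter fun a => IsSquare a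

/-- the idempotent of the Borel subgroup for the character `l` -/
noncomputable def eB (l : (ZMod q)ˣ →* kˣ) : MonoidAlgebra k G :=
  ∑ a ∈ Sq q, ∑ x : ZMod q, MonoidAlgebra.single (D.d a * D.n x) (((l a)⁻¹ : kˣ) : k)

/-- the element `w` of the group algebra -/
noncomputable def gw : MonoidAlgebra k G := MonoidAlgebra.single D.w 1

/-- the element `d a` of the group algebra -/
noncomputable def gd (a : (ZMod q)ˣ) : MonoidAlgebra k G := MonoidAlgebra.single (D.d a) 1

/-- the standard basis elements of the Hecke algebra `e A e` -/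
noncomputable def hk (a : (ZMod q)ˣ) : MonoidAlgebra k G :=
  eU D ψ 1 * gw D * gd D a * eU D ψ 1

/-- `∑_y l(y) ψ((y + 1/y)/a)` -/
noncomputable def Kl (l : (ZMod q)ˣ →* kˣ) (a : (ZMod q)ˣ) : k :=
  ∑ y : (ZMod q)ˣ, (l y : k) * ψ (((y : ZMod q) + ((y⁻¹ : (ZMod q)ˣ) : ZMod q)) *
    ((a⁻¹ : (ZMod q)ˣ) : ZMod q))

/-- the norm one group of the field with `q²` elements -/
def T1 (q : ℕ) [Fact q.Prime] : Subgroup (GaloisField q 2)ˣ where
  carrier := {t | t ^ (q + 1) = 1}
  mul_mem' := by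
    intro a b ha hb
    change (a * b) ^ (q + 1) = 1
    have ha' : a ^ (q + 1) = 1 := ha
    have hb' : b ^ (q + 1) = 1 := hb
    rw [mul_pow, ha', hb', one_mul]
  one_mem' := one_pow _
  inv_mem' := by
    intro a ha
    change a⁻¹ ^ (q + 1) = 1
    have ha' : a ^ (q + 1) = 1 := ha
    rw [inv_pow, ha', inv_one]

/-- `∑_t θ(t) ψ(Tr(t)/a)` -/
noncomputable def Kt (θ : T1 q →* kˣ) (a : (ZMod q)ˣ) : k :=
  ∑ᶠ t : T1 q, (θ t : k) * ψ (Algebra.trace (ZMod q) (GaloisField q 2) ((t : (GaloisField q 2)ˣ) :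
    GaloisField q 2) * ((a⁻¹ : (ZMod q)ˣ) : ZMod q))

end PSL

/-! ### the group `N = 11^{3+3}` -/

/-- vectors of length 3 over the field with 11 elements -/
abbrev V3 := Fin 3 → ZMod 11

/-- the free group of class 2 and exponent 11 on three generators: `(v,w)(v',w') =
(v+v', w+w'+v×v')` -/
@[ext] structure NN where
  v : V3
  w : V3
deriving DecidableEq

namespace NN

instance : Mul NN := ⟨fun x y => ⟨x.v + y.v, x.w + y.w + x.v ⨯₃ y.v⟩⟩
instance : One NN := ⟨⟨0, 0⟩⟩
instance : Inv NN := ⟨fun x => ⟨-x.v, -x.w⟩⟩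

@[simp] lemma mul_v (x y : NN) : (x * y).v = x.v + y.v := rfl
@[simp] lemma mul_w (x y : NN) : (x * y).w = x.w + y.w + x.v ⨯₃ y.v := rfl
@[simp] lemma one_v : (1 : NN).v = 0 := rfl
@[simp] lemma one_w : (1 : NN).w = 0 := rfl
@[simp] lemma inv_v (x : NN) : (x⁻¹).v = -x.v := rfl
@[simp] lemma inv_w (x : NN) : (x⁻¹).w = -x.w := rfl

instance : Group NN := Group.ofLeftAxioms
  (by
    intro a b c
    ext1
    · simp [add_assoc]
    · simp only [mul_w, mul_v, map_add, LinearMap.add_apply]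
      abel)
  (by intro a; ext1 <;> simp)
  (by intro a; ext1 <;> simp [cross_self])

/-- `N` as a set -/
def equivProd : NN ≃ V3 × V3 where
  toFun x := (x.v, x.w)
  invFun x := ⟨x.1, x.2⟩
  left_inv _ := rfl
  right_inv _ := rfl

instance : Fintype NN := Fintype.ofEquiv _ equivProd.symm

end NN

section act
variable (g : SL(3, ZMod 11)) (v : V3)

lemma inv_mulVec : ((g⁻¹ : SL(3, ZMod 11)) : Matrix (Fin 3) (Fin 3) (ZMod 11)) *ᵥ
    ((g : Matrix (Fin 3) (Fin 3) (ZMod 11)) *ᵥ v) = v := by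
  rw [Matrix.mulVec_mulVec, ← Matrix.SpecialLinearGroup.coe_mul, inv_mul_cancel,
    Matrix.SpecialLinearGroup.coe_one, Matrix.one_mulVec]

lemma mulVec_inv : (g : Matrix (Fin 3) (Fin 3) (ZMod 11)) *ᵥ
    (((g⁻¹ : SL(3, ZMod 11)) : Matrix (Fin 3) (Fin 3) (ZMod 11)) *ᵥ v) = v := by
  rw [Matrix.mulVec_mulVec, ← Matrix.SpecialLinearGroup.coe_mul, mul_inv_cancel,
    Matrix.SpecialLinearGroup.coe_one, Matrix.one_mulVec]

lemma inv_mulVecT : ((g⁻¹ : SL(3, ZMod 11)) : Matrix (Fin 3) (Fin 3) (ZMod 11))ᵀ *ᵥ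
    ((g : Matrix (Fin 3) (Fin 3) (ZMod 11))ᵀ *ᵥ v) = v := by
  rw [Matrix.mulVec_mulVec, ← Matrix.transpose_mul, ← Matrix.SpecialLinearGroup.coe_mul,
    mul_inv_cancel, Matrix.SpecialLinearGroup.coe_one, Matrix.transpose_one, Matrix.one_mulVec]

lemma mulVec_invT : (g : Matrix (Fin 3) (Fin 3) (ZMod 11))ᵀ *ᵥ
    (((g⁻¹ : SL(3, ZMod 11)) : Matrix (Fin 3) (Fin 3) (ZMod 11))ᵀ *ᵥ v) = v := by
  rw [Matrix.mulVec_mulVec, ← Matrix.transpose_mul, ← Matrix.SpecialLinearGroup.coe_mul,
    inv_mul_cancel, Matrix.SpecialLinearGroup.coe_one, Matrix.transpose_one, Matrix.one_mulVec]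

end act

/-- the natural action of `SL(3,11)` on vectors -/
def stdAct : SL(3, ZMod 11) →* Equiv.Perm V3 where
  toFun g :=
    { toFun := fun v => (g : Matrix (Fin 3) (Fin 3) (ZMod 11)) *ᵥ v
      invFun := fun v => ((g⁻¹ : SL(3, ZMod 11)) : Matrix (Fin 3) (Fin 3) (ZMod 11)) *ᵥ v
      left_inv := inv_mulVec g
      right_inv := mulVec_inv g }
  map_one' := by ext v; simp
  map_mul' g h := by
    ext v
    simp [Matrix.mulVec_mulVec]

/-- the dual action `p ↦ (g⁻¹)ᵀ p` -/
def dualAct : SL(3, ZMod 11) →* Equiv.Perm V3 where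
  toFun g :=
    { toFun := fun v => ((g⁻¹ : SL(3, ZMod 11)) : Matrix (Fin 3) (Fin 3) (ZMod 11))ᵀ *ᵥ v
      invFun := fun v => (g : Matrix (Fin 3) (Fin 3) (ZMod 11))ᵀ *ᵥ v
      left_inv := mulVec_invT g
      right_inv := inv_mulVecT g }
  map_one' := by ext v; simp
  map_mul' g h := by
    ext v
    simp only [Equiv.coe_fn_mk, Equiv.Perm.coe_mul, Function.comp_apply, Matrix.mulVec_mulVec,
      mul_inv_rev, Matrix.SpecialLinearGroup.coe_mul, Matrix.transpose_mul]

lemma stdAct_apply (g : SL(3, ZMod 11)) (v : V3) :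
    stdAct g v = (g : Matrix (Fin 3) (Fin 3) (ZMod 11)) *ᵥ v := rfl

lemma dualAct_apply (g : SL(3, ZMod 11)) (v : V3) :
    dualAct g v = ((g⁻¹ : SL(3, ZMod 11)) : Matrix (Fin 3) (Fin 3) (ZMod 11))ᵀ *ᵥ v := rfl

lemma stdAct_add (g : SL(3, ZMod 11)) (v v' : V3) :
    stdAct g (v + v') = stdAct g v + stdAct g v' := by
  simp only [stdAct_apply, Matrix.mulVec_add]

lemma dualAct_add (g : SL(3, ZMod 11)) (v v' : V3) :
    dualAct g (v + v') = dualAct g v + dualAct g v' := by
  simp only [dualAct_apply, Matrix.mulVec_add]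

/-- the cross product is equivariant -/
lemma cross_act (g : SL(3, ZMod 11)) (v v' : V3) :
    stdAct g v ⨯₃ stdAct g v' = dualAct g (v ⨯₃ v') := by
  rw [stdAct_apply, stdAct_apply, dualAct_apply, Matrix.SpecialLinearGroup.coe_inv]
  generalize (g : Matrix (Fin 3) (Fin 3) (ZMod 11)) = M
  rw [Matrix.adjugate_fin_three]
  ext i
  fin_cases i <;>
    simp [cross_apply, Matrix.mulVec, dotProduct, Fin.sum_univ_three, Matrix.transpose] <;>
    ring

/-- `SL(3,11)` acts on `N` by automorphisms -/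
def actN : SL(3, ZMod 11) →* MulAut NN where
  toFun g :=
    { toFun := fun x => ⟨stdAct g x.v, dualAct g x.w⟩
      invFun := fun x => ⟨stdAct g⁻¹ x.v, dualAct g⁻¹ x.w⟩
      left_inv := fun x => by simp [map_inv]
      right_inv := fun x => by simp [map_inv]
      map_mul' := fun x y => by
        ext1
        · simp only [NN.mul_v, stdAct_add]
        · simp only [NN.mul_w, dualAct_add, cross_act] }
  map_one' := by ext x : 1; simp
  map_mul' g h := by ext x : 1; simp

/-- labels of the blocks of `k N`: linear characters `p`, and pairs `(c,d)` -/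
abbrev Lab := V3 ⊕ ({c : V3 // c ≠ 0} × ZMod 11)

/-- action of `SL(3,11)` on nonzero vectors -/
def stdAct0 : SL(3, ZMod 11) →* Equiv.Perm {c : V3 // c ≠ 0} where
  toFun g :=
    { toFun := fun c => ⟨stdAct g c.1, fun h => c.2 (by
        have : stdAct g c.1 = stdAct g 0 := by rw [h, stdAct_apply, Matrix.mulVec_zero]
        exact (stdAct g).injective this)⟩
      invFun := fun c => ⟨stdAct g⁻¹ c.1, fun h => c.2 (by
        have : stdAct g⁻¹ c.1 = stdAct g⁻¹ 0 := by rw [h, stdAct_apply, Matrix.mulVec_zero]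
        exact (stdAct g⁻¹).injective this)⟩
      left_inv := fun c => by ext1; simp [map_inv]
      right_inv := fun c => by ext1; simp [map_inv] }
  map_one' := by ext c : 2; simp
  map_mul' g h := by ext c : 2; simp

/-- action on the labels -/
def labAct : SL(3, ZMod 11) →* Equiv.Perm Lab where
  toFun g := Equiv.sumCongr (dualAct g) (Equiv.prodCongr (stdAct0 g) (Equiv.refl _))
  map_one' := by
    ext x
    rcases x with x | x <;> simp
  map_mul' g h := by
    ext x
    rcases x with x | ⟨c, d⟩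
    · simp
    · simp [Prod.map]

/-- orbit data: on the invariant set `Y`, the orbits of `K` are represented by `r4 a`, `r3 a`,
`r1 a` with cyclic stabilisers of order 4, 3, 1 -/
structure OD {K X : Type} [Group K] (a : K →* Equiv.Perm X) (Y : Set X) (α : Type) where
  r4 : α → X
  r3 : α → X
  r1 : α → X
  m4 : ∀ i, r4 i ∈ Y
  m3 : ∀ i, r3 i ∈ Y
  m1 : ∀ i, r1 i ∈ Y
  s4 : ∀ i, ∃ u : K, orderOf u = 4 ∧ ∀ g, a g (r4 i) = r4 i ↔ g ∈ Subgroup.zpowers u
  s3 : ∀ i, ∃ u : K, orderOf u = 3 ∧ ∀ g, a g (r3 i) = r3 i ↔ g ∈ Subgroup.zpowers u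
  s1 : ∀ i g, a g (r1 i) = r1 i → g = 1
  cover : ∀ x ∈ Y, ∃ g i, a g (r4 i) = x ∨ a g (r3 i) = x ∨ a g (r1 i) = x
  d44 : ∀ i j g, a g (r4 i) = r4 j → i = j
  d33 : ∀ i j g, a g (r3 i) = r3 j → i = j
  d11 : ∀ i j g, a g (r1 i) = r1 j → i = j
  d43 : ∀ i j g, a g (r4 i) ≠ r3 j
  d41 : ∀ i j g, a g (r4 i) ≠ r1 j
  d31 : ∀ i j g, a g (r3 i) ≠ r1 j

/-! ### blocks -/

/-- a family of primitive idempotents of `k N` with their central idempotents, permuted by `K` -/
structure Blocks {k : Type u} [Field k] {N K : Type} [Group N] [Group K] (φ : K →* MulAut N)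
    {L : Type} [Fintype L] [DecidableEq L] (a : K →* Equiv.Perm L)
    (z f : L → MonoidAlgebra k N) : Prop where
  hz : ∀ l l', z l * z l' = if l = l' then z l else 0
  hz1 : ∑ l, z l = 1
  hzc : ∀ l x, z l * x = x * z l
  hφ : ∀ g l, MonoidAlgebra.mapDomain (φ g) (z l) = z (a g l)
  hf : ∀ l, f l * f l = f l
  hf0 : ∀ l, f l ≠ 0
  hzf : ∀ l, z l * f l = f l
  hf1 : ∀ l x, ∃ c : k, f l * x * f l = c • f l
  hgen : ∀ l, ∃ (n : ℕ) (x y : Fin n → MonoidAlgebra k N), z l = ∑ i, x i * f l * y i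

section
variable {k : Type u} [Field k] {N K : Type} [Group N] [Group K] [Finite N] [Finite K]
  {φ : K →* MulAut N} {L : Type} [Fintype L] [DecidableEq L] {a : K →* Equiv.Perm L}
  {z f : L → MonoidAlgebra k N}

/-- the image of an element of `k N` in `k (N ⋊ K)` -/
noncomputable def inN (φ : K →* MulAut N) (x : MonoidAlgebra k N) : MonoidAlgebra k (N ⋊[φ] K) :=
  MonoidAlgebra.mapDomain (SemidirectProduct.inl : N →* N ⋊[φ] K) x

/-- the image of an element of `k K` in `k (N ⋊ K)` -/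
noncomputable def inK (φ : K →* MulAut N) (x : MonoidAlgebra k K) : MonoidAlgebra k (N ⋊[φ] K) :=
  MonoidAlgebra.mapDomain (SemidirectProduct.inr : K →* N ⋊[φ] K) x

end

end CM
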