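import Pool.Agent.H334R2.CM.Defs
set_option autoImplicit false
open scoped Matrix MatrixGroups
universe u
namespace CM
namespace NREP

section general
variable {k : Type u} [Field k] {N : Type} [Group N] [Fintype N]

/-- the element of the group algebra with given coefficients -/
noncomputable def E (u : N → k) : MonoidAlgebra k N :=
  .ofCoeff (Finsupp.equivFunOnFinite.symm u)

lemma E_coeff (u : N → k) (x : N) : (E u).coeff x = u x := rfl

lemma ext' {a b : MonoidAlgebra k N} (h : ∀ x, a.coeff x = b.coeff x) : a = b := by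
  apply MonoidAlgebra.coeff_injective
  ext x
  exact h x

/-- `∑_{x ∈ H} m(x) x` -/
noncomputable def ee (H : Subgroup N) (m : N → k) : MonoidAlgebra k N :=
  open Classical in E fun x => if x ∈ H then m x else 0

lemma ee_coeff (H : Subgroup N) (m : N → k) (x : N) [Decidable (x ∈ H)] :
    (ee H m).coeff x = if x ∈ H then m x else 0 := by
  rw [ee, E_coeff]
  congr

/-- `m` is a character of `H` -/
structure Ch (H : Subgroup N) (m : N → k) : Prop where
  one : m 1 = 1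
  mul : ∀ x ∈ H, ∀ y ∈ H, m (x * y) = m x * m y

variable {H H' : Subgroup N} {m m' : N → k}

lemma Ch.mono (h : Ch H' m) (hH : H ≤ H') : Ch H m :=
  ⟨h.one, fun x hx y hy => h.mul x (hH hx) y (hH hy)⟩

lemma L1 (h : Ch H m) {y : N} (hy : y ∈ H) :
    MonoidAlgebra.single y 1 * ee H m = m y⁻¹ • ee H m := by
  classical
  apply ext'
  intro x
  rw [MonoidAlgebra.coeff_single_mul_apply, MonoidAlgebra.coeff_smul_apply, ee_coeff, ee_coeff,
    one_mul, smul_eq_mul]
  by_cases hx : x ∈ H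
  · have h1 : y⁻¹ * x ∈ H := H.mul_mem (H.inv_mem hy) hx
    rw [if_pos h1, if_pos hx, h.mul _ (H.inv_mem hy) _ hx]
  · have h1 : ¬ y⁻¹ * x ∈ H := fun h2 => hx (by
      have := H.mul_mem hy h2
      rwa [mul_inv_cancel_left] at this)
    rw [if_neg h1, if_neg hx, mul_zero]

lemma L2 (h : Ch H m) {y : N} (hy : y ∈ H) :
    ee H m * MonoidAlgebra.single y 1 = m y⁻¹ • ee H m := by
  classical
  apply ext'
  intro x
  rw [MonoidAlgebra.coeff_mul_single_apply, MonoidAlgebra.coeff_smul_apply, ee_coeff, ee_coeff,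
    mul_one, smul_eq_mul]
  by_cases hx : x ∈ H
  · have h1 : x * y⁻¹ ∈ H := H.mul_mem hx (H.inv_mem hy)
    rw [if_pos h1, if_pos hx, h.mul _ hx _ (H.inv_mem hy), mul_comm]
  · have h1 : ¬ x * y⁻¹ ∈ H := fun h2 => hx (by
      have := H.mul_mem h2 hy
      rwa [inv_mul_cancel_right] at this)
    rw [if_neg h1, if_neg hx, mul_zero]

lemma E_mul (u : N → k) (a : MonoidAlgebra k N) :
    E u * a = ∑ x : N, u x • (MonoidAlgebra.single x 1 * a) := by
  have h : E u = ∑ x : N, u x • MonoidAlgebra.single x (1 : k) := by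
    classical
    apply ext'
    intro y
    rw [E_coeff, MonoidAlgebra.coeff_sum, Finsupp.finsetSum_apply]
    simp [Finsupp.single_apply]
  rw [h, Finset.sum_mul]
  refine Finset.sum_congr rfl fun x _ => ?_
  rw [smul_mul_assoc]

lemma odd_cast [CharP k 2] {n : ℕ} (hn : Odd n) : (n : k) = 1 := by
  obtain ⟨j, rfl⟩ := hn
  have h2 : ((2 : ℕ) : k) = 0 := CharP.cast_eq_zero k 2
  push_cast at h2 ⊢
  rw [h2]
  simp

lemma card_one [CharP k 2] (hodd : Odd (Nat.card N)) (H : Subgroup N) [DecidablePred (· ∈ H)] :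
    (∑ x : N, if x ∈ H then (1 : k) else 0) = 1 := by
  rw [Finset.sum_ite, Finset.sum_const_zero, add_zero, Finset.sum_const, nsmul_eq_mul, mul_one]
  apply odd_cast
  have h1 : Nat.card H ∣ Nat.card N := Subgroup.card_subgroup_dvd_card H
  have h2 : (Finset.univ.filter fun x : N => x ∈ H).card = Nat.card H := by
    rw [Nat.card_eq_fintype_card, Fintype.card_subtype]
  rw [h2]
  exact hodd.of_dvd_nat h1

lemma L3 [CharP k 2] (hodd : Odd (Nat.card N)) (h : Ch H m) (h' : Ch H' m') (hH : H ≤ H')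
    (hm : ∀ x ∈ H, m x = m' x) : ee H m * ee H' m' = ee H' m' := by
  classical
  have h1 : ee H m = E fun x => if x ∈ H then m x else 0 := by
    rw [ee]
  rw [h1, E_mul]
  have h2 : ∀ x : N, (if x ∈ H then m x else 0) • (MonoidAlgebra.single x 1 * ee H' m') =
      (if x ∈ H then (1 : k) else 0) • ee H' m' := by
    intro x
    by_cases hx : x ∈ H
    · rw [if_pos hx, if_pos hx, L1 h' (hH hx), smul_smul, hm x hx,
        ← h'.mul _ (hH hx) _ (H'.inv_mem (hH hx)), mul_inv_cancel, h'.one]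
    · rw [if_neg hx, if_neg hx, zero_smul, zero_smul]
  rw [Finset.sum_congr rfl fun x _ => h2 x, ← Finset.sum_smul, card_one hodd, one_smul]

lemma L4 (h : ∀ x, ∀ y ∈ H, x * y * x⁻¹ ∈ H ∧ m (x * y * x⁻¹) = m y) (a : MonoidAlgebra k N) :
    ee H m * a = a * ee H m := by
  classical
  induction a using MonoidAlgebra.induction_linear with
  | zero => simp
  | add a b ha hb => rw [mul_add, add_mul, ha, hb]
  | single x r =>
    apply ext'
    intro g
    rw [MonoidAlgebra.coeff_single_mul_apply, MonoidAlgebra.coeff_mul_single_apply, ee_coeff,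
      ee_coeff, mul_comm]
    congr 1
    have h1 : g * x⁻¹ = x * (x⁻¹ * g) * x⁻¹ := by group
    by_cases hy : x⁻¹ * g ∈ H
    · have h2 := h x _ hy
      rw [if_pos hy, h1, if_pos h2.1, h2.2]
    · rw [if_neg hy, if_neg]
      intro h3
      apply hy
      have h4 := (h x⁻¹ _ h3).1
      have h5 : x⁻¹ * (g * x⁻¹) * x⁻¹⁻¹ = x⁻¹ * g := by group
      rwa [h5] at h4

lemma L5 (h : Ch H m) (h' : Ch H' m') {y : N} (hy : y ∈ H) (hy' : y ∈ H')
    (hne : m y⁻¹ ≠ m' y⁻¹) : ee H m * ee H' m' = 0 := by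
  have h1 : ee H m * MonoidAlgebra.single y 1 * ee H' m' = m y⁻¹ • (ee H m * ee H' m') := by
    rw [L2 h hy, smul_mul_assoc]
  have h2 : ee H m * MonoidAlgebra.single y 1 * ee H' m' = m' y⁻¹ • (ee H m * ee H' m') := by
    rw [mul_assoc, L1 h' hy', mul_smul_comm]
  have h3 : (m y⁻¹ - m' y⁻¹) • (ee H m * ee H' m') = 0 := by
    rw [sub_smul, ← h1, ← h2, sub_self]
  exact (smul_eq_zero.mp h3).resolve_left (sub_ne_zero.mpr hne)

lemma L6 (h : Ch H m) : ee H m ≠ 0 := by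
  classical
  intro h0
  have h1 : (ee H m).coeff 1 = 1 := by
    rw [ee_coeff, if_pos H.one_mem, h.one]
  rw [h0] at h1
  simp at h1

lemma L7 (φ : N ≃* N) (hH : ∀ x, φ x ∈ H' ↔ x ∈ H) (hm : ∀ x ∈ H, m' (φ x) = m x) :
    MonoidAlgebra.mapDomain φ (ee H m) = ee H' m' := by
  classical
  apply ext'
  intro y
  obtain ⟨x, rfl⟩ := φ.surjective y
  rw [MonoidAlgebra.coeff_mapDomain, Finsupp.mapDomain_apply φ.injective, ee_coeff, ee_coeff]
  by_cases hx : x ∈ H
  · rw [if_pos hx, if_pos ((hH x).2 hx), hm x hx]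
  · rw [if_neg hx, if_neg (fun h => hx ((hH x).1 h))]

/-- reduction of `f x f ∈ k f` to group elements -/
lemma L8 (f : MonoidAlgebra k N)
    (h : ∀ y : N, ∃ c : k, f * MonoidAlgebra.single y 1 * f = c • f) (x : MonoidAlgebra k N) :
    ∃ c : k, f * x * f = c • f := by
  induction x using MonoidAlgebra.induction_linear with
  | zero => exact ⟨0, by simp⟩
  | add a b ha hb =>
    obtain ⟨c, hc⟩ := ha
    obtain ⟨d, hd⟩ := hb
    exact ⟨c + d, by rw [mul_add, add_mul, hc, hd, add_smul]⟩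
  | single y r =>
    obtain ⟨c, hc⟩ := h y
    refine ⟨r * c, ?_⟩
    have h1 : MonoidAlgebra.single y r = r • MonoidAlgebra.single y (1 : k) := by
      rw [MonoidAlgebra.smul_single, smul_eq_mul, mul_one]
    rw [h1, mul_smul_comm, smul_mul_assoc, hc, smul_smul]

/-- a nontrivial character sum is zero -/
lemma charsum {G : Type} [AddGroup G] [Fintype G] (f : G → k) (hf : ∀ a b, f (a + b) = f a * f b)
    {a : G} (ha : f a ≠ 1) : ∑ x, f x = 0 := by
  have h1 : ∑ x, f x = f a * ∑ x, f x := by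
    rw [Finset.mul_sum]
    refine (Equiv.sum_comp (Equiv.addLeft a) f).symm.trans ?_
    refine Finset.sum_congr rfl fun x _ => ?_
    rw [Equiv.coe_addLeft, hf]
  have h2 : (f a - 1) * ∑ x, f x = 0 := by
    rw [sub_mul, one_mul, ← h1, sub_self]
  exact (mul_eq_zero.mp h2).resolve_left (sub_ne_zero.mpr ha)

end general

/-! ### vectors -/

lemma vid (n a b c : V3) : (a ⬝ᵥ (b ⨯₃ c)) • n =
    (n ⬝ᵥ a) • (b ⨯₃ c) + (n ⬝ᵥ b) • (c ⨯₃ a) + (n ⬝ᵥ c) • (a ⨯₃ b) := by
  ext i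
  fin_cases i <;>
    simp [cross_apply, dotProduct, Fin.sum_univ_three] <;> ring

lemma K1 {l c v : V3} (hl : l ⬝ᵥ c = 1) (h : v ⨯₃ c = 0) : v = (l ⬝ᵥ v) • c := by
  have h1 : (l ⬝ᵥ c) • v - (l ⬝ᵥ v) • c = l ⨯₃ (v ⨯₃ c) := by
    ext i
    fin_cases i <;>
      simp [cross_apply, dotProduct, Fin.sum_univ_three] <;> ring
  rw [h, hl, one_smul, map_zero, sub_eq_zero] at h1
  exact h1

instance : Fact (Nat.Prime 11) := ⟨by norm_num⟩

lemma ex_lam {c : V3} (hc : c ≠ 0) : ∃ l : V3, l ⬝ᵥ c = 1 := by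
  obtain ⟨i, hi⟩ := Function.ne_iff.mp hc
  refine ⟨Pi.single i (c i)⁻¹, ?_⟩
  rw [single_dotProduct]
  exact inv_mul_cancel₀ hi

lemma ex_nn {c : V3} (hc : c ≠ 0) : ∃ n : V3, n ≠ 0 ∧ n ⬝ᵥ c = 0 := by
  by_contra hcon
  push Not at hcon
  apply hc
  have h1 : ∀ e : V3, e ⨯₃ c = 0 := by
    intro e
    by_contra he
    apply hcon (e ⨯₃ c) he
    simp [cross_apply, dotProduct, Fin.sum_univ_three]
    ring
  have h2 := h1 ![1, 0, 0]
  have h3 := h1 ![0, 1, 0]
  rw [cross_apply] at h2 h3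
  have h4 := congrFun h2 1
  have h5 := congrFun h2 2
  have h6 := congrFun h3 0
  simp at h4 h5 h6
  ext i
  fin_cases i
  · have h7 := congrFun h3 2
    simpa using h7
  · simpa using h5
  · simpa using h6

/-- a functional with `l(c) = 1` -/
noncomputable def lam (c : V3) : V3 :=
  open Classical in if h : c ≠ 0 then (ex_lam h).choose else 0

lemma lam_spec {c : V3} (hc : c ≠ 0) : lam c ⬝ᵥ c = 1 := by
  rw [lam, dif_pos hc]
  exact (ex_lam hc).choose_spec

/-- a nonzero functional with `n(c) = 0` -/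
noncomputable def nn (c : V3) : V3 :=
  open Classical in if h : c ≠ 0 then (ex_nn h).choose else 0

lemma nn_ne {c : V3} (hc : c ≠ 0) : nn c ≠ 0 := by
  rw [nn, dif_pos hc]
  exact (ex_nn hc).choose_spec.1

lemma nn_dot {c : V3} (hc : c ≠ 0) : nn c ⬝ᵥ c = 0 := by
  rw [nn, dif_pos hc]
  exact (ex_nn hc).choose_spec.2

lemma conj_v (x y : NN) : (x * y * x⁻¹).v = y.v := by
  simp

lemma conj_w (x y : NN) : (x * y * x⁻¹).w = y.w + (2 : ZMod 11) • (x.v ⨯₃ y.v) := by
  have h : (x.v + y.v) ⨯₃ (-x.v) = x.v ⨯₃ y.v := by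
    rw [map_neg, map_add, LinearMap.add_apply, cross_self, zero_add, cross_anticomm]
  simp only [NN.mul_w, NN.mul_v, NN.inv_w, NN.inv_v]
  rw [h, two_smul]
  abel

/-- `[F c, *]` -/
def Hc (c : V3) : Subgroup NN where
  carrier := {x | x.v ⨯₃ c = 0}
  mul_mem' := by
    intro x y hx hy
    change (x * y).v ⨯₃ c = 0
    have hx' : x.v ⨯₃ c = 0 := hx
    have hy' : y.v ⨯₃ c = 0 := hy
    rw [NN.mul_v, map_add, LinearMap.add_apply, hx', hy', add_zero]
  one_mem' := by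
    change (1 : NN).v ⨯₃ c = 0
    rw [NN.one_v, map_zero, LinearMap.zero_apply]
  inv_mem' := by
    intro x hx
    change (x⁻¹).v ⨯₃ c = 0
    have hx' : x.v ⨯₃ c = 0 := hx
    rw [NN.inv_v, map_neg, LinearMap.neg_apply, hx', neg_zero]

lemma mem_Hc {c : V3} {x : NN} : x ∈ Hc c ↔ x.v ⨯₃ c = 0 := Iff.rfl

/-- `[n^⊥, *]` -/
def Ac (n : V3) : Subgroup NN where
  carrier := {x | n ⬝ᵥ x.v = 0}
  mul_mem' := by
    intro x y hx hy
    change n ⬝ᵥ (x * y).v = 0
    have hx' : n ⬝ᵥ x.v = 0 := hx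
    have hy' : n ⬝ᵥ y.v = 0 := hy
    rw [NN.mul_v, dotProduct_add, hx', hy', add_zero]
  one_mem' := by
    change n ⬝ᵥ (1 : NN).v = 0
    rw [NN.one_v, dotProduct_zero]
  inv_mem' := by
    intro x hx
    change n ⬝ᵥ (x⁻¹).v = 0
    have hx' : n ⬝ᵥ x.v = 0 := hx
    rw [NN.inv_v, dotProduct_neg, hx', neg_zero]

lemma mem_Ac {n : V3} {x : NN} : x ∈ Ac n ↔ n ⬝ᵥ x.v = 0 := Iff.rfl

lemma Hc_le {c : V3} (hc : c ≠ 0) : Hc c ≤ Ac (nn c) := by
  intro x hx
  rw [mem_Hc] at hx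
  rw [mem_Ac, K1 (lam_spec hc) hx, dotProduct_smul, nn_dot hc, smul_zero]

lemma det_zero {c n a b : V3} (hn : n ≠ 0) (hc : n ⬝ᵥ c = 0) (ha : n ⬝ᵥ a = 0)
    (hb : n ⬝ᵥ b = 0) : c ⬝ᵥ (a ⨯₃ b) = 0 := by
  have h := vid n c a b
  rw [hc, ha, hb, zero_smul, zero_smul, zero_smul, add_zero, add_zero] at h
  exact (smul_eq_zero.mp h).resolve_right hn

variable {k : Type u} [Field k] (ψ : AddChar (ZMod 11) k)

/-- the characters for linear characters -/
noncomputable def mp (p : V3) (x : NN) : k := ψ (-(p ⬝ᵥ x.v))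

/-- the characters for the pairs `(c,d)` -/
noncomputable def mc (c : V3) (d : ZMod 11) (x : NN) : k :=
  ψ (-(d * (lam c ⬝ᵥ x.v) + c ⬝ᵥ x.w))

lemma Ch_p (p : V3) : Ch (⊤ : Subgroup NN) (mp ψ p) where
  one := by simp [mp]
  mul x _ y _ := by
    rw [mp, mp, mp, NN.mul_v, dotProduct_add, neg_add, AddChar.map_add_eq_mul]

lemma Ch_c {c : V3} (hc : c ≠ 0) (d : ZMod 11) : Ch (Ac (nn c)) (mc ψ c d) where
  one := by simp [mc]
  mul x hx y hy := by
    rw [mc, mc, mc, ← AddChar.map_add_eq_mul, NN.mul_v, NN.mul_w, dotProduct_add, dotProduct_add,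
      dotProduct_add, det_zero (nn_ne hc) (nn_dot hc) hx hy]
    congr 1
    ring

/-- the central idempotents -/
noncomputable def zz : Lab → MonoidAlgebra k NN
  | .inl p => ee ⊤ (mp ψ p)
  | .inr (c, d) => ee (Hc c.1) (mc ψ c.1 d)

/-- the primitive idempotents -/
noncomputable def ff : Lab → MonoidAlgebra k NN
  | .inl p => ee ⊤ (mp ψ p)
  | .inr (c, d) => ee (Ac (nn c.1)) (mc ψ c.1 d)

lemma cardNN : Nat.card NN = 11 ^ 6 := by
  rw [Nat.card_congr NN.equivProd, Nat.card_prod, Nat.card_fun, Nat.card_zmod, Nat.card_fin]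
  norm_num

lemma oddNN : Odd (Nat.card NN) := by
  rw [cardNN]
  decide

@[simp] lemma psi_zero : ψ 0 = 1 := AddChar.map_zero_eq_one ψ

section prim
variable (hψ : ψ.IsPrimitive)
include hψ

lemma psi_one {a : ZMod 11} : ψ a = 1 ↔ a = 0 :=
  AddChar.IsPrimitive.zmod_char_eq_one_iff 11 hψ a

lemma psi_inj {a b : ZMod 11} (h : ψ a = ψ b) : a = b := by
  have h1 : ψ (a - b) = 1 := by
    rw [AddChar.map_sub_eq_div, h, div_self]
    intro h0
    have h2 : ψ b * ψ (-b) = 1 := by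
      rw [← AddChar.map_add_eq_mul, add_neg_cancel, psi_zero]
    rw [h0, zero_mul] at h2
    exact zero_ne_one h2
  exact sub_eq_zero.mp ((psi_one ψ hψ).mp h1)

lemma orth (l l' : Lab) (hl : l ≠ l') : zz ψ l * zz ψ l' = 0 := by
  rcases l with p | ⟨⟨c, hc⟩, d⟩ <;> rcases l' with p' | ⟨⟨c', hc'⟩, d'⟩
  · have hp : p ≠ p' := fun h => hl (by rw [h])
    have h1 : ∃ v : V3, p ⬝ᵥ v ≠ p' ⬝ᵥ v := by
      by_contra hcon
      push Not at hcon
      exact hp (dotProduct_eq _ _ hcon)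
    obtain ⟨v, hv⟩ := h1
    refine L5 (Ch_p ψ p) (Ch_p ψ p') (y := ⟨v, 0⟩) trivial trivial ?_
    intro h
    rw [mp, mp, NN.inv_v] at h
    have h2 := psi_inj ψ hψ h
    rw [dotProduct_neg, dotProduct_neg, neg_neg, neg_neg] at h2
    exact hv h2
  · refine L5 (Ch_p ψ p) ((Ch_c ψ hc' d').mono (Hc_le hc')) (y := ⟨0, lam c'⟩) trivial ?_ ?_
    · rw [mem_Hc, map_zero, LinearMap.zero_apply]
    · intro h
      rw [mp, mc, NN.inv_v, NN.inv_w] at h
      have h2 := psi_inj ψ hψ h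
      rw [neg_zero, dotProduct_zero, dotProduct_zero, mul_zero, zero_add, dotProduct_neg,
        dotProduct_comm, lam_spec hc', neg_neg, neg_zero] at h2
      exact zero_ne_one h2
  · refine L5 ((Ch_c ψ hc d).mono (Hc_le hc)) (Ch_p ψ p') (y := ⟨0, lam c⟩) ?_ trivial ?_
    · rw [mem_Hc, map_zero, LinearMap.zero_apply]
    · intro h
      rw [mp, mc, NN.inv_v, NN.inv_w] at h
      have h2 := psi_inj ψ hψ h
      rw [neg_zero, dotProduct_zero, dotProduct_zero, mul_zero, zero_add, dotProduct_neg,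
        dotProduct_comm, lam_spec hc, neg_neg, neg_zero] at h2
      exact zero_ne_one h2.symm
  · by_cases hcc : c = c'
    · subst hcc
      have hd : d ≠ d' := fun h => hl (by rw [h])
      refine L5 ((Ch_c ψ hc d).mono (Hc_le hc)) ((Ch_c ψ hc d').mono (Hc_le hc))
        (y := ⟨c, 0⟩) ?_ ?_ ?_
      · rw [mem_Hc, cross_self]
      · rw [mem_Hc, cross_self]
      · intro h
        rw [mc, mc, NN.inv_v, NN.inv_w] at h
        have h2 := psi_inj ψ hψ h
        rw [neg_zero, dotProduct_zero, dotProduct_neg, lam_spec hc] at h2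
        apply hd
        simpa using h2
    · have h1 : ∃ w : V3, c ⬝ᵥ w ≠ c' ⬝ᵥ w := by
        by_contra hcon
        push Not at hcon
        exact hcc (dotProduct_eq _ _ hcon)
      obtain ⟨w, hw⟩ := h1
      refine L5 ((Ch_c ψ hc d).mono (Hc_le hc)) ((Ch_c ψ hc' d').mono (Hc_le hc'))
        (y := ⟨0, w⟩) ?_ ?_ ?_
      · rw [mem_Hc, map_zero, LinearMap.zero_apply]
      · rw [mem_Hc, map_zero, LinearMap.zero_apply]
      · intro h
        rw [mc, mc, NN.inv_v, NN.inv_w] at h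
        have h2 := psi_inj ψ hψ h
        rw [neg_zero, dotProduct_zero, dotProduct_zero, dotProduct_neg, dotProduct_neg] at h2
        apply hw
        simpa using h2

end prim

lemma central (l : Lab) (a : MonoidAlgebra k NN) : zz ψ l * a = a * zz ψ l := by
  rcases l with p | ⟨⟨c, hc⟩, d⟩
  · refine L4 ?_ a
    intro x y _
    refine ⟨trivial, ?_⟩
    rw [mp, mp, conj_v]
  · refine L4 ?_ a
    intro x y hy
    rw [mem_Hc] at hy
    refine ⟨by rw [mem_Hc, conj_v, hy], ?_⟩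
    rw [mc, mc, conj_v, conj_w]
    have h1 : c ⬝ᵥ (x.v ⨯₃ y.v) = 0 := by
      rw [K1 (lam_spec hc) hy, map_smul, dotProduct_smul, dot_cross_self, smul_zero]
    rw [dotProduct_add, dotProduct_smul, h1, smul_zero, add_zero]

lemma perm (g : SL(3, ZMod 11)) (l : Lab) :
    MonoidAlgebra.mapDomain (actN g) (zz ψ l) = zz ψ (labAct g l) := by
  have hdot : ∀ p v : V3, dualAct g p ⬝ᵥ stdAct g v = p ⬝ᵥ v := by
    intro p v
    rw [stdAct_apply, dualAct_apply, Matrix.dotProduct_mulVec, Matrix.vecMul_mulVec,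
      Matrix.transpose_transpose, ← Matrix.SpecialLinearGroup.coe_mul, inv_mul_cancel,
      Matrix.SpecialLinearGroup.coe_one, Matrix.vecMul_one]
  rcases l with p | ⟨⟨c, hc⟩, d⟩
  · refine L7 (actN g) (fun x => ⟨fun _ => trivial, fun _ => trivial⟩) ?_
    intro x _
    change ψ (-(dualAct g p ⬝ᵥ stdAct g x.v)) = ψ (-(p ⬝ᵥ x.v))
    rw [hdot]
  · have hc' : stdAct g c ≠ 0 := ((stdAct0 g) ⟨c, hc⟩).2
    refine L7 (actN g) (fun x => ?_) ?_
    · change stdAct g x.v ⨯₃ stdAct g c = 0 ↔ x.v ⨯₃ c = 0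
      rw [cross_act]
      constructor
      · intro h
        have h0 : dualAct g 0 = 0 := by rw [dualAct_apply, Matrix.mulVec_zero]
        exact (dualAct g).injective (h.trans h0.symm)
      · intro h
        rw [h, dualAct_apply, Matrix.mulVec_zero]
    · intro x hx
      change ψ (-(d * (lam (stdAct g c) ⬝ᵥ stdAct g x.v) + stdAct g c ⬝ᵥ dualAct g x.w)) =
        ψ (-(d * (lam c ⬝ᵥ x.v) + c ⬝ᵥ x.w))
      have h1 : stdAct g c ⬝ᵥ dualAct g x.w = c ⬝ᵥ x.w := by
        rw [dotProduct_comm, hdot, dotProduct_comm]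
      have h2 : lam (stdAct g c) ⬝ᵥ stdAct g x.v = lam c ⬝ᵥ x.v := by
        have h3 := K1 (lam_spec hc) hx
        have h4 : stdAct g x.v = (lam c ⬝ᵥ x.v) • stdAct g c := by
          conv_lhs => rw [h3]
          rw [stdAct_apply, stdAct_apply, Matrix.mulVec_smul]
        rw [h4, dotProduct_smul, lam_spec hc', smul_eq_mul, mul_one]
      rw [h1, h2]

lemma coeff_sum_gen {ι : Type} (s : Finset ι) (f : ι → MonoidAlgebra k NN) (x : NN) :
    (∑ i ∈ s, f i).coeff x = ∑ i ∈ s, (f i).coeff x := by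
  rw [MonoidAlgebra.coeff_sum, Finsupp.finsetSum_apply]

lemma coeffp (p : V3) (x : NN) : (zz ψ (Sum.inl p)).coeff x = ψ (-(p ⬝ᵥ x.v)) := by
  classical
  rw [zz, ee_coeff, if_pos (Subgroup.mem_top x), mp]

lemma coeffc (c : {c : V3 // c ≠ 0}) (d : ZMod 11) (x : NN) :
    (zz ψ (Sum.inr (c, d))).coeff x =
        if x.v ⨯₃ c.1 = 0 then ψ (d * -(lam c.1 ⬝ᵥ x.v)) * ψ (-(c.1 ⬝ᵥ x.w)) else 0 := by
  classical
  have h4 : ψ (d * -(lam c.1 ⬝ᵥ x.v)) * ψ (-(c.1 ⬝ᵥ x.w)) = mc ψ c.1 d x := by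
    rw [mc, ← AddChar.map_add_eq_mul, neg_add, mul_neg]
  rw [h4, zz, ee_coeff]
  exact if_congr mem_Hc rfl rfl

lemma coeff1 (x : NN) :
    (1 : MonoidAlgebra k NN).coeff x = if x.v = 0 then (if x.w = 0 then 1 else 0) else 0 := by
  rw [MonoidAlgebra.one_def, MonoidAlgebra.coeff_single]
  by_cases hv : x.v = 0
  · rw [if_pos hv]
    by_cases hw : x.w = 0
    · rw [if_pos hw]
      have h1 : x = 1 := NN.ext hv hw
      rw [h1, Finsupp.single_eq_same]
    · rw [if_neg hw, Finsupp.single_eq_of_ne]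
      intro h0
      exact hw (by rw [h0]; rfl)
  · rw [if_neg hv, Finsupp.single_eq_of_ne]
    intro h0
    exact hv (by rw [h0]; rfl)

lemma sumc (c : {c : V3 // c ≠ 0}) (x : NN) (hs : ∀ b : ZMod 11,
    ∑ a : ZMod 11, ψ (a * b) = if b = 0 then 1 else 0) :
    ∑ d : ZMod 11, (zz ψ (Sum.inr (c, d))).coeff x =
      if x.v = 0 then ψ (-(c.1 ⬝ᵥ x.w)) else 0 := by
  rw [Finset.sum_congr rfl fun d _ => coeffc ψ c d x]
  by_cases hx : x.v ⨯₃ c.1 = 0
  · simp only [if_pos hx]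
    rw [← Finset.sum_mul, hs]
    by_cases hv : x.v = 0
    · rw [if_pos hv, if_pos, one_mul]
      rw [hv, dotProduct_zero, neg_zero]
    · rw [if_neg hv, if_neg, zero_mul]
      intro h0
      apply hv
      have h5 := K1 (lam_spec c.2) hx
      rw [neg_eq_zero.mp h0, zero_smul] at h5
      exact h5
  · simp only [if_neg hx, Finset.sum_const_zero]
    rw [if_neg]
    intro hv
    apply hx
    rw [hv, map_zero, LinearMap.zero_apply]

lemma eleven (k : Type u) [Field k] [CharP k 2] : ((11 : ℕ) : k) = 1 := odd_cast (by decide)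

section prim
variable [CharP k 2] (hψ : ψ.IsPrimitive)
include hψ

/-- sum of the characters `p ↦ ψ(-p·v)` -/
lemma sumV (v : V3) : ∑ p : V3, ψ (-(p ⬝ᵥ v)) = if v = 0 then 1 else 0 := by
  by_cases hv : v = 0
  · rw [if_pos hv, hv]
    simp only [dotProduct_zero, neg_zero, psi_zero, Finset.sum_const, nsmul_eq_mul, mul_one]
    apply odd_cast
    rw [Finset.card_univ, Fintype.card_fun, ZMod.card, Fintype.card_fin]
    decide
  · rw [if_neg hv]
    refine charsum (fun p : V3 => ψ (-(p ⬝ᵥ v))) (fun a b => ?_) (a := lam v) ?_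
    · change ψ (-((a + b) ⬝ᵥ v)) = ψ (-(a ⬝ᵥ v)) * ψ (-(b ⬝ᵥ v))
      rw [add_dotProduct, neg_add, AddChar.map_add_eq_mul]
    · change ψ (-(lam v ⬝ᵥ v)) ≠ 1
      rw [lam_spec hv, Ne, psi_one ψ hψ]
      decide

lemma sumF (b : ZMod 11) : ∑ a : ZMod 11, ψ (a * b) = if b = 0 then 1 else 0 := by
  by_cases hb : b = 0
  · rw [if_pos hb, hb]
    simp only [mul_zero, psi_zero, Finset.sum_const, nsmul_eq_mul, mul_one]
    apply odd_cast
    rw [Finset.card_univ, ZMod.card]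
    decide
  · rw [if_neg hb]
    refine charsum (fun a : ZMod 11 => ψ (a * b)) (fun a a' => ?_) (a := 1) ?_
    · change ψ ((a + a') * b) = ψ (a * b) * ψ (a' * b)
      rw [add_mul, AddChar.map_add_eq_mul]
    · change ψ (1 * b) ≠ 1
      rw [one_mul, Ne, psi_one ψ hψ]
      exact hb

lemma sumV' (w : V3) :
    (1 : k) + ∑ c : {c : V3 // c ≠ 0}, ψ (-(c.1 ⬝ᵥ w)) = if w = 0 then 1 else 0 := by
  have h7 := Fintype.sum_eq_add_sum_subtype_ne (fun c : V3 => ψ (-(c ⬝ᵥ w))) 0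
  rw [sumV ψ hψ, zero_dotProduct, neg_zero, psi_zero] at h7
  exact h7.symm

lemma sum_one_aux (x : NN) : ∑ l, (zz ψ l).coeff x = (1 : MonoidAlgebra k NN).coeff x := by
  rw [Fintype.sum_sum_type, Fintype.sum_prod_type,
    Finset.sum_congr rfl fun p _ => coeffp ψ p x, sumV ψ hψ, coeff1,
    Finset.sum_congr rfl fun c _ => sumc ψ c x (sumF ψ hψ)]
  by_cases hv : x.v = 0
  · simp only [if_pos hv]
    exact sumV' ψ hψ x.w
  · simp only [if_neg hv]
    rw [Finset.sum_const_zero, zero_add]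

lemma sum_one : ∑ l, zz ψ l = 1 := by
  apply ext'
  intro x
  exact (coeff_sum_gen Finset.univ (zz ψ) x).trans (sum_one_aux ψ hψ x)

lemma ff_mid (l : Lab) (y : NN) :
    ∃ c : k, ff ψ l * MonoidAlgebra.single y 1 * ff ψ l = c • ff ψ l := by
  have hidem : ∀ l, ff ψ l * ff ψ l = ff ψ l := by
    intro l
    rcases l with p | ⟨⟨c, hc⟩, d⟩
    · exact L3 oddNN (Ch_p ψ p) (Ch_p ψ p) le_rfl (fun _ _ => rfl)
    · exact L3 oddNN (Ch_c ψ hc d) (Ch_c ψ hc d) le_rfl (fun _ _ => rfl)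
  rcases l with p | ⟨⟨c, hc⟩, d⟩
  · refine ⟨mp ψ p y⁻¹, ?_⟩
    have h1 : ff ψ (Sum.inl p) * MonoidAlgebra.single y 1 = mp ψ p y⁻¹ • ff ψ (Sum.inl p) :=
      L2 (Ch_p ψ p) trivial
    rw [h1, smul_mul_assoc, hidem]
  · by_cases hy : y ∈ Ac (nn c)
    · refine ⟨mc ψ c d y⁻¹, ?_⟩
      have h1 : ff ψ (Sum.inr (⟨c, hc⟩, d)) * MonoidAlgebra.single y 1 =
          mc ψ c d y⁻¹ • ff ψ (Sum.inr (⟨c, hc⟩, d)) := L2 (Ch_c ψ hc d) hy
      rw [h1, smul_mul_assoc, hidem]
    · refine ⟨0, ?_⟩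
      rw [zero_smul]
      -- a vector `e` in `n^⊥`, not parallel to `c`
      have h1 : ∃ e : V3, nn c ⬝ᵥ e = 0 ∧ e ⨯₃ c ≠ 0 := by
        by_contra hcon
        push Not at hcon
        -- all of `n^⊥` is parallel to `c`
        have h2 : ∀ e : V3, (nn c ⨯₃ e) ⨯₃ c = 0 := fun e => hcon _ (dot_self_cross _ _)
        have h3 : ∀ e : V3, (nn c ⨯₃ e) ⨯₃ c = (nn c ⬝ᵥ c) • e - (e ⬝ᵥ c) • nn c := by
          intro e
          ext i
          fin_cases i <;>
            simp [cross_apply, dotProduct, Fin.sum_univ_three] <;> ring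
        have h4 := h3 (lam c)
        rw [h2, nn_dot hc, lam_spec hc, zero_smul, one_smul, zero_sub] at h4
        exact nn_ne hc (neg_eq_zero.mp h4.symm)
      obtain ⟨e, he, hec⟩ := h1
      have hy' : nn c ⬝ᵥ y.v ≠ 0 := hy
      have h5 : c ⬝ᵥ (y.v ⨯₃ e) ≠ 0 := by
        intro h0
        have h6 := vid (nn c) c y.v e
        rw [h0, nn_dot hc, he, zero_smul, zero_smul, zero_smul, zero_add, add_zero] at h6
        exact (smul_ne_zero hy' hec) h6.symm
      set f := ff ψ (Sum.inr (⟨c, hc⟩, d)) with hf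
      have hfe : f = ee (Ac (nn c)) (mc ψ c d) := rfl
      let t : NN := ⟨e, 0⟩
      have ht : t ∈ Ac (nn c) := he
      have hyt : y * t * y⁻¹ ∈ Ac (nn c) := by
        rw [mem_Ac, conj_v]
        exact he
      have hCh := Ch_c ψ hc d
      have h7 : f * MonoidAlgebra.single y 1 * MonoidAlgebra.single t 1 * f =
          mc ψ c d t⁻¹ • (f * MonoidAlgebra.single y 1 * f) := by
        rw [mul_assoc _ (MonoidAlgebra.single t 1), hfe, L1 hCh ht, mul_smul_comm]
      have h8 : f * MonoidAlgebra.single y 1 * MonoidAlgebra.single t 1 * f =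
          mc ψ c d (y * t * y⁻¹)⁻¹ • (f * MonoidAlgebra.single y 1 * f) := by
        have h9 : MonoidAlgebra.single y (1 : k) * MonoidAlgebra.single t 1 =
            MonoidAlgebra.single (y * t * y⁻¹) 1 * MonoidAlgebra.single y 1 := by
          rw [MonoidAlgebra.single_mul_single, MonoidAlgebra.single_mul_single, mul_one,
            inv_mul_cancel_right]
        rw [mul_assoc f, h9, ← mul_assoc f, hfe, L2 hCh hyt, smul_mul_assoc, smul_mul_assoc]
      have h10 : (mc ψ c d t⁻¹ - mc ψ c d (y * t * y⁻¹)⁻¹) •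
          (f * MonoidAlgebra.single y 1 * f) = 0 := by
        rw [sub_smul, ← h7, ← h8, sub_self]
      refine (smul_eq_zero.mp h10).resolve_left (sub_ne_zero.mpr ?_)
      intro h11
      rw [mc, mc] at h11
      have h12 := psi_inj ψ hψ h11
      rw [NN.inv_v, NN.inv_v, NN.inv_w, NN.inv_w, conj_v, conj_w] at h12
      have h13 : t.w = 0 := rfl
      have h14 : t.v = e := rfl
      rw [h13, h14, zero_add, neg_zero, dotProduct_zero, dotProduct_neg, dotProduct_neg,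
        dotProduct_smul] at h12
      have h15 : (2 : ZMod 11) * (c ⬝ᵥ (y.v ⨯₃ e)) = 0 := by
        rw [smul_eq_mul] at h12
        linear_combination -h12
      rcases mul_eq_zero.mp h15 with h16 | h16
      · exact absurd h16 (by decide)
      · exact h5 h16

lemma gen (l : Lab) : ∃ (n : ℕ) (x y : Fin n → MonoidAlgebra k NN),
    zz ψ l = ∑ i, x i * ff ψ l * y i := by
  rcases l with p | ⟨⟨c, hc⟩, d⟩
  · refine ⟨1, fun _ => 1, fun _ => 1, ?_⟩
    rw [Fin.sum_univ_one, one_mul, mul_one]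
    rfl
  · have hv0 : ∃ v0 : V3, nn c ⬝ᵥ v0 ≠ 0 := by
      refine ⟨lam (nn c), ?_⟩
      rw [dotProduct_comm, lam_spec (nn_ne hc)]
      exact one_ne_zero
    obtain ⟨v0, hv0⟩ := hv0
    let X : ZMod 11 → MonoidAlgebra k NN := fun i => MonoidAlgebra.single ⟨i • v0, 0⟩ 1
    let Y : ZMod 11 → MonoidAlgebra k NN := fun i => MonoidAlgebra.single ⟨-(i • v0), 0⟩ 1
    refine ⟨11, X, Y, ?_⟩
    change zz ψ (Sum.inr (⟨c, hc⟩, d)) = ∑ i : ZMod 11,
      MonoidAlgebra.single (⟨i • v0, 0⟩ : NN) (1 : k) * ff ψ (Sum.inr (⟨c, hc⟩, d)) *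
        MonoidAlgebra.single (⟨-(i • v0), 0⟩ : NN) (1 : k)
    classical
    apply ext'
    intro x
    rw [MonoidAlgebra.coeff_sum, Finsupp.finsetSum_apply, zz, ff]
    have h1 : ∀ i : ZMod 11, (MonoidAlgebra.single (⟨i • v0, 0⟩ : NN) (1 : k) *
        ee (Ac (nn c)) (mc ψ c d) * MonoidAlgebra.single (⟨-(i • v0), 0⟩ : NN) (1 : k)).coeff x =
        if nn c ⬝ᵥ x.v = 0 then mc ψ c d x * ψ (i * (2 * (c ⬝ᵥ (v0 ⨯₃ x.v)))) else 0 := by
      intro i
      rw [MonoidAlgebra.coeff_mul_single_apply, MonoidAlgebra.coeff_single_mul_apply, mul_one,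
        one_mul, ee_coeff]
      have h2 : (⟨i • v0, 0⟩ : NN)⁻¹ * (x * (⟨-(i • v0), 0⟩ : NN)⁻¹) =
          (⟨-(i • v0), 0⟩ : NN) * x * (⟨-(i • v0), 0⟩ : NN)⁻¹ := by
        have h3 : (⟨i • v0, 0⟩ : NN)⁻¹ = ⟨-(i • v0), 0⟩ := by
          apply NN.ext
          · rfl
          · rw [NN.inv_w, neg_zero]
        rw [h3, mul_assoc]
      rw [h2]
      have h4 : ((⟨-(i • v0), 0⟩ : NN) * x * (⟨-(i • v0), 0⟩ : NN)⁻¹ ∈ Ac (nn c)) ↔
          nn c ⬝ᵥ x.v = 0 := by
        rw [mem_Ac, conj_v]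
      by_cases hx : nn c ⬝ᵥ x.v = 0
      · rw [if_pos (h4.2 hx), if_pos hx, mc, mc, ← AddChar.map_add_eq_mul, conj_v, conj_w]
        congr 1
        change -(d * (lam c ⬝ᵥ x.v) + c ⬝ᵥ (x.w + (2 : ZMod 11) • ((-(i • v0)) ⨯₃ x.v))) = _
        rw [map_neg, map_smul, LinearMap.neg_apply, LinearMap.smul_apply, dotProduct_add,
          dotProduct_smul, dotProduct_neg, dotProduct_smul, smul_eq_mul, smul_eq_mul]
        ring
      · rw [if_neg (fun h => hx (h4.1 h)), if_neg hx]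
    rw [Finset.sum_congr rfl fun i _ => h1 i, ee_coeff]
    by_cases hx : nn c ⬝ᵥ x.v = 0
    · simp only [if_pos hx]
      rw [← Finset.mul_sum, sumF ψ hψ]
      have h5 := vid (nn c) c v0 x.v
      rw [nn_dot hc, hx, zero_smul, zero_smul, zero_add, add_zero] at h5
      by_cases hH : x ∈ Hc c
      · rw [if_pos hH, if_pos, mul_one]
        rw [mem_Hc] at hH
        rw [hH, smul_zero] at h5
        rw [(smul_eq_zero.mp h5).resolve_right (nn_ne hc), mul_zero]
      · rw [if_neg hH, if_neg, mul_zero]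
        intro h0
        apply hH
        rw [mem_Hc]
        rcases mul_eq_zero.mp h0 with h6 | h6
        · exact absurd h6 (by decide)
        · rw [h6, zero_smul] at h5
          exact (smul_eq_zero.mp h5.symm).resolve_left hv0
    · simp only [if_neg hx, Finset.sum_const_zero]
      rw [if_neg]
      intro hH
      exact hx (Hc_le hc hH)

end prim

lemma ex_psi (k : Type u) [Field k] [IsAlgClosed k] [CharP k 2] :
    ∃ ψ : AddChar (ZMod 11) k, ψ.IsPrimitive := by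
  have : NeZero ((11 : ℕ) : k) := ⟨by rw [eleven]; exact one_ne_zero⟩
  obtain ⟨ζ, hζ⟩ := HasEnoughRootsOfUnity.exists_primitiveRoot k 11
  exact ⟨AddChar.zmodChar 11 hζ.pow_eq_one, AddChar.zmodChar_primitive_of_primitive_root 11 hζ⟩

end NREP

open NREP in
/-- the blocks of `k N`, `N = 11^{3+3}` -/
theorem NREP {k : Type u} [Field k] [IsAlgClosed k] [CharP k 2] {K : Type} [Group K]
    (ρ : K →* SL(3, ZMod 11)) :
    ∃ z f : Lab → MonoidAlgebra k NN, Blocks (actN.comp ρ) (labAct.comp ρ) z f ∧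
      f (Sum.inl 0) = z (Sum.inl 0) ∧
      ∀ x : NN, MonoidAlgebra.single x 1 * f (Sum.inl 0) = f (Sum.inl 0) := by
  obtain ⟨ψ, hψ⟩ := ex_psi k
  refine ⟨zz ψ, ff ψ, ?_, rfl, ?_⟩
  · refine ⟨?_, sum_one ψ hψ, central ψ, ?_, ?_, ?_, ?_, ?_, gen ψ hψ⟩
    · intro l l'
      by_cases hl : l = l'
      · subst hl
        rw [if_pos rfl]
        rcases l with p | ⟨⟨c, hc⟩, d⟩
        · exact L3 oddNN (Ch_p ψ p) (Ch_p ψ p) le_rfl (fun _ _ => rfl)
        · exact L3 oddNN ((Ch_c ψ hc d).mono (Hc_le hc)) ((Ch_c ψ hc d).mono (Hc_le hc)) le_rfl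
            (fun _ _ => rfl)
      · rw [if_neg hl]
        exact orth ψ hψ l l' hl
    · intro g l
      exact perm ψ (ρ g) l
    · intro l
      rcases l with p | ⟨⟨c, hc⟩, d⟩
      · exact L3 oddNN (Ch_p ψ p) (Ch_p ψ p) le_rfl (fun _ _ => rfl)
      · exact L3 oddNN (Ch_c ψ hc d) (Ch_c ψ hc d) le_rfl (fun _ _ => rfl)
    · intro l
      rcases l with p | ⟨⟨c, hc⟩, d⟩
      · exact L6 (Ch_p ψ p)
      · exact L6 (Ch_c ψ hc d)
    · intro l
      rcases l with p | ⟨⟨c, hc⟩, d⟩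
      · exact L3 oddNN (Ch_p ψ p) (Ch_p ψ p) le_rfl (fun _ _ => rfl)
      · exact L3 oddNN ((Ch_c ψ hc d).mono (Hc_le hc)) (Ch_c ψ hc d) (Hc_le hc)
          (fun _ _ => rfl)
    · intro l x
      exact L8 _ (ff_mid ψ hψ l) x
  · intro x
    have h1 : MonoidAlgebra.single x 1 * ff ψ (Sum.inl 0) =
        mp ψ 0 x⁻¹ • ff ψ (Sum.inl 0) := L1 (Ch_p ψ 0) trivial
    rw [h1, mp, zero_dotProduct, neg_zero, psi_zero, one_smul]

end CM
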